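import Pool.Agent.Helper83_Nets.KillingCont

/-!
Three distinct directions at a point near `u` (MP_f059bd_gt, module M8).
-/

set_option autoImplicit false

open Set Filter Topology Metric
open scoped ContDiff

namespace Pool.Agent.Helper4Nets

variable {S : Type} [MetricSpace S] (A : GoodAtlas S)

namespace GoodAtlas

/-- Near every point `u` there are three points `P m` such that for all `x` close to `u` and all
`y m` close to `P m` the differentials of the distance from `y m` at `x` are pairwise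
distinct. -/
theorem exists_star (hD : Directions) (u : S) :
    ∃ (P : Fin 3 → S) (ε : ℝ), 0 < ε ∧ (∀ m, P m ≠ u) ∧
      ∀ (x : S) (y : Fin 3 → S), dist x u < ε → (∀ m, dist (y m) (P m) < ε) →
        ∀ (i : A.ι) (i' : Fin 3 → A.ι), x ∈ (A.c i).source →
        (∀ m, y m ∈ (A.c (i' m)).source) →
        (∀ m, x ≠ y m ∧ dist x (y m) < A.r) ∧
        Pairwise fun m m' => ∃ v : E2,
          fderiv ℝ (A.ell i (i' m)) (A.c i x, A.c (i' m) (y m)) (v, 0) ≠
          fderiv ℝ (A.ell i (i' m')) (A.c i x, A.c (i' m') (y m')) (v, 0) := by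
  obtain ⟨i1, hi1⟩ := A.K_cover u
  have hu1 : u ∈ (A.c i1).source := A.K_sub i1 hi1
  have hx0 : A.c i1 u ∈ (A.c i1).target := (A.c i1).map_source hu1
  have hl0 : ∀ m : Fin 3, (![coordL 0, coordL 1, -coordL 0] : Fin 3 → E2 →L[ℝ] ℝ) m ≠ 0 := by
    intro m
    fin_cases m
    · exact coordL_ne_zero 0
    · exact coordL_ne_zero 1
    · exact neg_ne_zero.2 (coordL_ne_zero 0)
  obtain ⟨j, p, hxd, hgood, hp⟩ := A.exists_base_points hD i1 hx0 3
    ![coordL 0, coordL 1, -coordL 0] hl0
  choose t ht hpt using hp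
  obtain ⟨v0, hv0⟩ := A.fderiv_tr_surjective i1 j hxd (EuclideanSpace.single 0 1)
  set P : Fin 3 → S := fun m => (A.c j).symm (p m) with hP
  have hPs : ∀ m, P m ∈ (A.c j).source := fun m => (A.c j).map_target (hgood m).2.1
  have hcP : ∀ m, A.c j (P m) = p m := fun m => (A.c j).right_inv (hgood m).2.1
  have hdist : ∀ m, A.ell i1 j (A.c i1 u, p m) = dist u (P m) := by
    intro m
    rw [A.ell_apply, (A.c i1).left_inv hu1]
  -- the values of the differentials
  set F : Fin 3 → S × (Fin 3 → S) → ℝ := fun m z =>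
    fderiv ℝ (A.ell i1 j) (A.c i1 z.1, A.c j (z.2 m)) (v0, 0) with hF
  have hF0 : 0 < F 0 (u, P) := by
    simp only [hF, hcP, hpt, hv0]
    simp [coordL_apply, ht]
  have hF1 : F 1 (u, P) = 0 := by
    simp only [hF, hcP, hpt, hv0]
    simp [coordL_apply]
  have hF2 : F 2 (u, P) < 0 := by
    simp only [hF, hcP, hpt, hv0]
    simp [coordL_apply, ht]
  have hc1 : ContinuousAt (fun z : S × (Fin 3 → S) => A.c i1 z.1) (u, P) :=
    ContinuousAt.comp (f := fun z : S × (Fin 3 → S) => z.1) ((A.c i1).continuousAt hu1)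
      continuousAt_fst
  have hc2 : ∀ m, ContinuousAt (fun z : S × (Fin 3 → S) => A.c j (z.2 m)) (u, P) := by
    intro m
    have h1 : ContinuousAt (fun z : S × (Fin 3 → S) => z.2 m) (u, P) := by fun_prop
    exact ContinuousAt.comp (f := fun z : S × (Fin 3 → S) => z.2 m)
      ((A.c j).continuousAt (hPs m)) h1
  have hc3 : ∀ m, ContinuousAt (fun z : S × (Fin 3 → S) => (A.c i1 z.1, A.c j (z.2 m)))
      (u, P) := fun m => hc1.prodMk (hc2 m)
  have hg3 : ∀ m, (A.c i1 u, A.c j (P m)) ∈ A.good i1 j := by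
    intro m
    rw [hcP]; exact hgood m
  have hFc : ∀ m, ContinuousAt (F m) (u, P) := by
    intro m
    have h1 := ContinuousAt.comp (f := fun z : S × (Fin 3 → S) => (A.c i1 z.1, A.c j (z.2 m)))
      (x := (u, P)) (A.good_continuousAt_fderiv i1 j (hg3 m)) (hc3 m)
    exact h1.clm_apply continuousAt_const
  have e1 : ∀ᶠ z : S × (Fin 3 → S) in 𝓝 (u, P), F 1 z < F 0 z :=
    ((hFc 1).eventually_lt (hFc 0)) (by rw [hF1]; exact hF0)
  have e2 : ∀ᶠ z : S × (Fin 3 → S) in 𝓝 (u, P), F 2 z < F 1 z :=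
    ((hFc 2).eventually_lt (hFc 1)) (by rw [hF1]; exact hF2)
  have e3 : ∀ᶠ z : S × (Fin 3 → S) in 𝓝 (u, P), ∀ m,
      (A.c i1 z.1, A.c j (z.2 m)) ∈ A.good i1 j := by
    rw [eventually_all]
    intro m
    exact (hc3 m).eventually ((A.good_open i1 j).mem_nhds (hg3 m))
  have e4 : ∀ᶠ z : S × (Fin 3 → S) in 𝓝 (u, P), z.1 ∈ (A.c i1).source :=
    continuousAt_fst.eventually ((A.c i1).open_source.mem_nhds hu1)
  have e5 : ∀ᶠ z : S × (Fin 3 → S) in 𝓝 (u, P), ∀ m, z.2 m ∈ (A.c j).source := by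
    rw [eventually_all]
    intro m
    have h1 : ContinuousAt (fun z : S × (Fin 3 → S) => z.2 m) (u, P) := by fun_prop
    exact h1.eventually ((A.c j).open_source.mem_nhds (hPs m))
  obtain ⟨ε, hε, hball⟩ := Metric.eventually_nhds_iff.1 (e1.and (e2.and (e3.and (e4.and e5))))
  refine ⟨P, ε, hε, ?_, ?_⟩
  · intro m hm
    have := (hgood m).2.2.1
    rw [hdist, hm, dist_self] at this
    exact lt_irrefl _ this
  · intro x y hx hy i i' hxi hyi
    have hz : dist ((x, y) : S × (Fin 3 → S)) (u, P) < ε := by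
      rw [Prod.dist_eq]
      exact max_lt hx ((dist_pi_lt_iff hε).2 hy)
    obtain ⟨h1, h2, h3, h4, h5⟩ := hball hz
    simp only at h3 h4 h5
    have hd3 : ∀ m, A.ell i1 j (A.c i1 x, A.c j (y m)) = dist x (y m) := by
      intro m
      rw [A.ell_apply, (A.c i1).left_inv h4, (A.c j).left_inv (h5 m)]
    constructor
    · intro m
      obtain ⟨-, -, h6, h7⟩ := h3 m
      rw [hd3] at h6 h7
      exact ⟨dist_pos.1 h6, h7⟩
    · have hxd' : A.c i x ∈ A.dom i i1 := A.mem_dom_of_mem i i1 hxi h4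
      obtain ⟨v, hv⟩ := A.fderiv_tr_surjective i i1 hxd' v0
      have hval : ∀ m, fderiv ℝ (A.ell i (i' m)) (A.c i x, A.c (i' m) (y m)) (v, 0) =
          F m (x, y) := by
        intro m
        have hyd : A.c (i' m) (y m) ∈ A.dom (i' m) j := A.mem_dom_of_mem _ _ (hyi m) (h5 m)
        have hgd : (A.c i x, A.c (i' m) (y m)) ∈ A.good i (i' m) := by
          have e : A.ell i (i' m) (A.c i x, A.c (i' m) (y m)) = dist x (y m) := by
            rw [A.ell_apply, (A.c i).left_inv hxi, (A.c (i' m)).left_inv (hyi m)]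
          refine ⟨(A.c i).map_source hxi, (A.c (i' m)).map_source (hyi m), ?_, ?_⟩
          · rw [e, ← hd3]; exact (h3 m).2.2.1
          · rw [e, ← hd3]; exact (h3 m).2.2.2
        rw [A.fderiv_ell_tr i i1 (i' m) j hxd' hyd hgd, hv, map_zero, A.tr_apply i i1 hxi,
          A.tr_apply (i' m) j (hyi m)]
      intro m m' hmm'
      refine ⟨v, ?_⟩
      rw [hval, hval]
      fin_cases m <;> fin_cases m'
      · exact absurd rfl hmm'
      · exact h1.ne'
      · exact (h2.trans h1).ne'
      · exact h1.ne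
      · exact absurd rfl hmm'
      · exact h2.ne'
      · exact (h2.trans h1).ne
      · exact h2.ne
      · exact absurd rfl hmm'

end GoodAtlas

end Pool.Agent.Helper4Nets
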