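import Pool.Agent.Helper83_Nets.Deform
import Pool.Agent.Helper83_Nets.Star

/-!
Abstract nets with integer weights (MP_f059bd_gt, module M8).
-/

set_option autoImplicit false

open Set Filter Topology Metric
open scoped ContDiff

namespace Pool.Agent.Helper4Nets

/-- common denominators -/
theorem exists_common_den {e : Type} [Fintype e] (w : e → ℚ) (hw : ∀ p, 0 < w p) :
    ∃ D : ℕ, 0 < D ∧ ∃ m : e → ℕ, (∀ p, 0 < m p) ∧ ∀ p, (m p : ℝ) = D * (w p : ℝ) := by
  classical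
  have hD : 0 < ∏ p, (w p).den := Finset.prod_pos fun p _ => (w p).den_pos
  refine ⟨∏ p, (w p).den, hD, ?_⟩
  have key : ∀ p, ∃ m : ℕ, 0 < m ∧ (m : ℚ) = ((∏ p, (w p).den : ℕ) : ℚ) * w p := by
    intro p
    obtain ⟨c, hc⟩ := Finset.dvd_prod_of_mem (fun p => (w p).den) (Finset.mem_univ p)
    have hnum : 0 < (w p).num := Rat.num_pos.2 (hw p)
    have hc0 : 0 < c := by
      rcases Nat.eq_zero_or_pos c with h | h
      · rw [hc, h, mul_zero] at hD
        exact absurd hD (lt_irrefl _)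
      · exact h
    refine ⟨c * (w p).num.natAbs, Nat.mul_pos hc0 (Int.natAbs_pos.2 hnum.ne'), ?_⟩
    rw [hc]
    push_cast
    have h1 : ((w p).den : ℚ) * w p = (w p).num := by
      rw [mul_comm]; exact Rat.mul_den_eq_num (w p)
    have h2 : (((w p).num.natAbs : ℕ) : ℚ) = ((w p).num : ℚ) := by
      have h3 : (((w p).num.natAbs : ℕ) : ℤ) = (w p).num := Int.natAbs_of_nonneg hnum.le
      rw [← Int.cast_natCast, h3]
    calc (c : ℚ) * (((w p).num.natAbs : ℕ) : ℚ) = c * (w p).num := by rw [h2]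
      _ = c * ((w p).den * w p) := by rw [h1]
      _ = (w p).den * c * w p := by ring
  choose m hm hm' using key
  refine ⟨m, hm, fun p => ?_⟩
  have := hm' p
  have h5 : ((m p : ℚ) : ℝ) = ((((∏ p, (w p).den : ℕ) : ℚ) * w p : ℚ) : ℝ) := by rw [this]
  push_cast at h5 ⊢
  exact h5

variable {S : Type} [MetricSpace S] {A : GoodAtlas S}

namespace Config

variable (C : Config A)

open Classical in
theorem sum_edge (F : C.Edge → ℝ) :
    ∑ p, F p = ∑ a, ∑ b, if h : C.edge A.r a b then F ⟨(a, b), h⟩ else 0 := by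
  have h1 := Fintype.sum_subtype_add_sum_subtype (fun x : Fin C.n × Fin C.n =>
    C.edge A.r x.1 x.2) (fun x => if h : C.edge A.r x.1 x.2 then F ⟨x, h⟩ else 0)
  have h2 : ∑ i : {x : Fin C.n × Fin C.n // ¬ C.edge A.r x.1 x.2},
      (if h : C.edge A.r (i : Fin C.n × Fin C.n).1 (i : Fin C.n × Fin C.n).2 then
        F ⟨(i : Fin C.n × Fin C.n), h⟩ else 0) = 0 := by
    refine Finset.sum_eq_zero fun i _ => ?_
    rw [dif_neg i.2]
  rw [h2, add_zero] at h1
  rw [← Fintype.sum_prod_type' (fun a b => if h : C.edge A.r a b then F ⟨(a, b), h⟩ else 0)]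
  rw [← h1]
  refine Finset.sum_congr (by ext; simp) fun i _ => ?_
  rw [dif_pos i.2]

/-- bilinear second variation -/
noncomputable def Qb (p : C.Edge) : (Fin C.n → E2) →ₗ[ℝ] (Fin C.n → E2) →ₗ[ℝ] ℝ :=
  LinearMap.mk₂ ℝ (fun ξ ζ => C.ddlen p.1.1 p.1.2 ξ ζ)
    (fun x y z => by simp) (fun c x y => by simp) (fun x y z => by simp) (fun c x y => by simp)

theorem Qb_apply (p : C.Edge) (ξ ζ : Fin C.n → E2) : C.Qb p ξ ζ = C.d2 p.1.1 p.1.2 ξ ζ := rfl

theorem d1_swap (a b : Fin C.n) (ξ : Fin C.n → E2) : C.d1 b a ξ = C.d1 a b ξ :=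
  A.fderiv_ell_swap _ _ _ _ _ _

theorem d2_swap (a b : Fin C.n) (ξ ζ : Fin C.n → E2) : C.d2 b a ξ ζ = C.d2 a b ξ ζ :=
  A.D2_ell_swap _ _ _ _ _ _ _ _

open Classical in
/-- symmetrised weights and the gradient of the weighted length -/
theorem dL_single (w : C.Edge → ℝ) (q : Fin C.n → E2) (a : Fin C.n) (v : E2) :
    C.dL w q (Pi.single a v) = ∑ b,
      ((if h : C.edge A.r a b then w ⟨(a, b), h⟩ else 0) +
        (if h : C.edge A.r b a then w ⟨(b, a), h⟩ else 0)) *
      fderiv ℝ (A.ell (C.i a) (C.i b)) (q a, q b) (v, 0) := by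
  rw [dL_apply, sum_edge]
  have h1 : ∀ a' b', (if h : C.edge A.r a' b' then
      w ⟨(a', b'), h⟩ * C.dlen a' b' q (Pi.single a v) else 0) =
      (if h : C.edge A.r a' b' then w ⟨(a', b'), h⟩ else 0) *
        (if a' = a then fderiv ℝ (A.ell (C.i a') (C.i b')) (q a', q b') (v, 0) else 0) +
      (if h : C.edge A.r a' b' then w ⟨(a', b'), h⟩ else 0) *
        (if b' = a then fderiv ℝ (A.ell (C.i b') (C.i a')) (q b', q a') (v, 0) else 0) := by
    intro a' b'
    by_cases h : C.edge A.r a' b'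
    · simp only [dif_pos h]
      rw [← mul_add]
      congr 1
      rw [dlen_apply]
      have e1 : (((Pi.single a v : Fin C.n → E2) a', (Pi.single a v : Fin C.n → E2) b') :
          E2 × E2) = ((Pi.single a v : Fin C.n → E2) a', 0) +
            (0, (Pi.single a v : Fin C.n → E2) b') := by simp
      rw [e1, map_add]
      congr 1
      · by_cases ha : a' = a
        · rw [if_pos ha, ha, Pi.single_eq_same]
        · rw [if_neg ha, Pi.single_eq_of_ne ha]
          have : ((0, 0) : E2 × E2) = 0 := rfl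
          rw [this, map_zero]
      · rw [← A.fderiv_ell_swap (C.i a') (C.i b')]
        by_cases hb : b' = a
        · rw [if_pos hb, hb, Pi.single_eq_same]
        · rw [if_neg hb, Pi.single_eq_of_ne hb]
          have : ((0, 0) : E2 × E2) = 0 := rfl
          rw [this, map_zero]
    · simp only [dif_neg h, zero_mul, add_zero]
  simp only [h1, Finset.sum_add_distrib, add_mul]
  congr 1
  · rw [Finset.sum_eq_single a]
    · simp
    · intro b _ hb
      simp [hb]
    · intro h; exact absurd (Finset.mem_univ a) h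
  · refine Finset.sum_congr rfl fun b _ => ?_
    rw [Finset.sum_eq_single a]
    · simp
    · intro b _ hb
      simp [hb]
    · intro h; exact absurd (Finset.mem_univ a) h

/-- kernel of the second variation -/
noncomputable def kerQ (w : C.Edge → ℝ) : Submodule ℝ (Fin C.n → E2) :=
  LinearMap.ker ((∑ p : C.Edge, w p • C.ddlen p.1.1 p.1.2 :
    (Fin C.n → E2) →L[ℝ] ((Fin C.n → E2) →L[ℝ] ℝ)) :
    (Fin C.n → E2) →ₗ[ℝ] ((Fin C.n → E2) →L[ℝ] ℝ))

theorem mem_kerQ (w : C.Edge → ℝ) (ξ : Fin C.n → E2) :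
    ξ ∈ C.kerQ w ↔ ∀ ζ, ∑ p : C.Edge, w p * C.d2 p.1.1 p.1.2 ξ ζ = 0 := by
  have hBa : ∀ ξ ζ, (∑ p : C.Edge, w p • C.ddlen p.1.1 p.1.2 :
    (Fin C.n → E2) →L[ℝ] ((Fin C.n → E2) →L[ℝ] ℝ)) ξ ζ =
      ∑ p : C.Edge, w p * C.d2 p.1.1 p.1.2 ξ ζ := by
    intro ξ ζ
    simp only [sum_apply]
    rfl
  unfold kerQ
  rw [LinearMap.mem_ker]
  constructor
  · intro h ζ
    have := congrArg (fun L : (Fin C.n → E2) →L[ℝ] ℝ => L ζ) h
    rw [← hBa]
    exact this
  · intro h
    ext ζ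
    have h2 := hBa ξ ζ
    rw [h] at h2
    exact h2

/-- existence of a nondegenerate positive stress -/
theorem exists_nondegenerate (hD : Directions) (hM : MaxRank)
    (hcomp : ∀ N : Submodule ℝ (Fin C.n → E2),
      (∀ k ∈ A.Killing, C.restr k ∈ N) →
      (∀ ξ ∈ N, ∃ η : Fin C.n → E2, ∀ a b, C.edge A.r a b → C.d2 a b ξ ξ = C.d1 a b η) →
      ∀ ξ ∈ N, ∃ k ∈ A.Killing, C.restr k = ξ)
    (w : Fin C.n → Fin C.n → ℝ) (hws : ∀ a b, w a b = w b a)
    (hwp : ∀ a b, C.edge A.r a b → 0 < w a b)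
    (hwz : ∀ a b, ¬ C.edge A.r a b → w a b = 0)
    (hwe : ∀ a, ∀ v : E2, ∑ b, w a b *
      fderiv ℝ (A.ell (C.i a) (C.i b)) (C.q a, C.q b) (v, 0) = 0) :
    ∃ w₀ : C.Edge → ℝ, (∀ p, 0 < w₀ p) ∧ C.dL w₀ C.q = 0 ∧
      ∀ ξ : Fin C.n → E2, (∀ ζ, ∑ p : C.Edge, w₀ p * C.d2 p.1.1 p.1.2 ξ ζ = 0) →
      ∃ k ∈ A.Killing, C.restr k = ξ := by
  classical
  have h0 : ∀ x, ∑ p : C.Edge, w p.1.1 p.1.2 *
      ((C.dlen p.1.1 p.1.2 C.q : (Fin C.n → E2) →ₗ[ℝ] ℝ) x) = 0 := by
    intro x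
    rw [sum_edge]
    have h1 : ∀ a b, (if h : C.edge A.r a b then
        w a b * ((C.dlen a b C.q : (Fin C.n → E2) →ₗ[ℝ] ℝ) x) else 0) =
        w a b * fderiv ℝ (A.ell (C.i a) (C.i b)) (C.q a, C.q b) (x a, 0) +
        w b a * fderiv ℝ (A.ell (C.i b) (C.i a)) (C.q b, C.q a) (x b, 0) := by
      intro a b
      by_cases h : C.edge A.r a b
      · rw [dif_pos h, hws b a, ← mul_add]
        congr 1
        have e1 : ((x a, x b) : E2 × E2) = (x a, 0) + (0, x b) := by simp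
        change fderiv ℝ (A.ell (C.i a) (C.i b)) (C.q a, C.q b) (x a, x b) = _
        rw [e1, map_add, A.fderiv_ell_swap (C.i a) (C.i b)]
      · rw [dif_neg h, hws b a, hwz a b h, zero_mul, zero_mul, add_zero]
    simp only [h1, Finset.sum_add_distrib]
    rw [Finset.sum_eq_zero fun a _ => hwe a (x a), zero_add, Finset.sum_comm]
    exact Finset.sum_eq_zero fun b _ => hwe b (x b)
  obtain ⟨w₀, hw₀, hcr, hker⟩ := hM (Fin C.n → E2) C.Edge
    (fun p => (C.dlen p.1.1 p.1.2 C.q : (Fin C.n → E2) →ₗ[ℝ] ℝ)) C.Qb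
    (fun p x y => C.d2_comm p.2 x y) (fun p => w p.1.1 p.1.2) (fun p => hwp _ _ p.2) h0
  have hcrit : C.dL w₀ C.q = 0 := by
    ext x
    rw [dL_apply]
    exact hcr x
  refine ⟨w₀, hw₀, hcrit, fun ξ hξ => ?_⟩
  refine hcomp (C.kerQ w₀) ?_ ?_ ξ ((C.mem_kerQ w₀ ξ).2 hξ)
  · intro k hk
    rw [mem_kerQ]
    exact C.restr_mem_ker hD hk hcrit
  · intro ξ' hξ'
    rw [mem_kerQ] at hξ'
    obtain ⟨η, hη⟩ := hker ξ' hξ'
    exact ⟨η, fun a b hab => hη ⟨(a, b), hab⟩⟩

end Config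

/-- MODULE M8. -/
theorem abstractNet [ConnectedSpace S] (hC : Compactness A) (hM : MaxRank)
    (hE : ExistsEquilibrium A) (hD : Directions) : AbstractNet A := by
  classical
  intro U hU hUne
  obtain ⟨u, hu⟩ := hUne
  obtain ⟨P, ε1, hε1, hPu, hstar⟩ := A.exists_star hD u
  obtain ⟨δU, hδU, hballU⟩ := Metric.isOpen_iff.1 hU u hu
  obtain ⟨ε2, hε2, hcomp⟩ := hC
  -- lower bound for the diameter
  have hd0 : 0 < dist u (P 0) / 2 := half_pos (dist_pos.2 (hPu 0).symm)
  obtain ⟨ε, hε, h1, h2, h3, h4, h5⟩ : ∃ ε > 0, ε ≤ ε1 ∧ ε ≤ δU ∧ ε ≤ ε2 ∧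
      ε ≤ dist u (P 0) / 2 ∧ ε ≤ A.r / 2 :=
    ⟨min ε1 (min δU (min ε2 (min (dist u (P 0) / 2) (A.r / 2)))),
      lt_min hε1 (lt_min hδU (lt_min hε2 (lt_min hd0 (half_pos A.r_pos)))),
      min_le_left _ _, (min_le_right _ _).trans (min_le_left _ _),
      (min_le_right _ _).trans ((min_le_right _ _).trans (min_le_left _ _)),
      (min_le_right _ _).trans ((min_le_right _ _).trans ((min_le_right _ _).trans
        (min_le_left _ _))),
      (min_le_right _ _).trans ((min_le_right _ _).trans ((min_le_right _ _).trans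
        (min_le_right _ _)))⟩
  obtain ⟨C, w, hdense, hws, hwp, hwz, -, hwe⟩ := hE ε hε A.r A.r_pos le_rfl
  have hcomp' := hcomp C (fun z => by
    obtain ⟨a, ha⟩ := hdense z
    exact ⟨a, ha.trans_le h3⟩)
  obtain ⟨w₀, hw₀, hcrit, hker⟩ := C.exists_nondegenerate hD hM hcomp' w hws hwp hwz hwe
  -- the special vertices
  obtain ⟨a0, ha0⟩ := hdense u
  choose b0 hb0 using fun m => hdense (P m)
  -- continuity of the positions
  have hpos : ∀ a, ContinuousAt (fun q : Fin C.n → E2 => (A.c (C.i a)).symm (q a)) C.q :=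
    fun a => ContinuousAt.comp (f := fun q : Fin C.n → E2 => q a)
      ((A.c (C.i a)).continuousAt_symm (C.q_mem_target a)) (continuousAt_apply a C.q)
  have e1 : ∀ᶠ q in 𝓝 C.q, ∀ a b, a ≠ b →
      (A.c (C.i a)).symm (q a) ≠ (A.c (C.i b)).symm (q b) := by
    rw [eventually_all]
    intro a
    rw [eventually_all]
    intro b
    by_cases hab : a = b
    · exact Eventually.of_forall fun q h => absurd hab h
    · have h6 : (A.c (C.i a)).symm (C.q a) ≠ (A.c (C.i b)).symm (C.q b) := by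
        rw [C.symm_q, C.symm_q]
        exact fun h => hab (C.inj h)
      filter_upwards [((hpos a).prodMk (hpos b)).eventually
        (isOpen_ne_fun continuous_fst continuous_snd |>.mem_nhds h6)] with q hq _
      exact hq
  have e2 : ∀ᶠ q in 𝓝 C.q, dist ((A.c (C.i a0)).symm (q a0)) u < ε := by
    have h6 : dist ((A.c (C.i a0)).symm (C.q a0)) u < ε := by
      rw [C.symm_q, dist_comm]; exact ha0
    exact ((hpos a0).dist continuousAt_const).eventually (gt_mem_nhds h6)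
  have e3 : ∀ᶠ q in 𝓝 C.q, ∀ m, dist ((A.c (C.i (b0 m))).symm (q (b0 m))) (P m) < ε := by
    rw [eventually_all]
    intro m
    have h6 : dist ((A.c (C.i (b0 m))).symm (C.q (b0 m))) (P m) < ε := by
      rw [C.symm_q, dist_comm]; exact hb0 m
    exact ((hpos (b0 m)).dist continuousAt_const).eventually (gt_mem_nhds h6)
  obtain ⟨w', q, hw', ⟨hq1, hq2, hq3⟩, hok, hdL⟩ :=
    C.deform hD w₀ hw₀ hcrit hker (e1.and (e2.and e3))
  obtain ⟨D, hDpos, m, hm, hmw⟩ := exists_common_den w' hw'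
  -- the data
  set x : Fin C.n → S := fun a => (A.c (C.i a)).symm (q a) with hx
  set k : Fin C.n → Fin C.n → ℕ := fun a b =>
    (if h : C.edge A.r a b then m ⟨(a, b), h⟩ else 0) +
      (if h : C.edge A.r b a then m ⟨(b, a), h⟩ else 0) with hk
  have hxs : ∀ a, x a ∈ (A.c (C.i a)).source := fun a => (A.c (C.i a)).map_target (hok.1 a)
  have hcx : ∀ a, A.c (C.i a) (x a) = q a := fun a => (A.c (C.i a)).right_inv (hok.1 a)
  have hkpos : ∀ a b, C.edge A.r a b → 0 < k a b := by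
    intro a b h
    simp only [hk, dif_pos h]
    have := hm ⟨(a, b), h⟩
    omega
  have hkedge : ∀ a b, 0 < k a b → C.edge A.r a b := by
    intro a b h
    by_contra hab
    have hba : ¬ C.edge A.r b a := fun h' => hab (C.edge_symm h')
    simp only [hk, dif_neg hab, dif_neg hba] at h
    exact absurd h (lt_irrefl _)
  -- edges at the special vertex
  have hC0 := hstar (C.x a0) (fun m => C.x (b0 m)) (by rw [dist_comm]; exact ha0.trans_le h1)
    (fun m => by rw [dist_comm]; exact (hb0 m).trans_le h1) (C.i a0) (fun m => C.i (b0 m))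
    (A.K_sub _ (C.mem a0)) (fun m => A.K_sub _ (C.mem (b0 m)))
  have hedge0 : ∀ m, C.edge A.r a0 (b0 m) := fun m =>
    ⟨fun h => (hC0.1 m).1 (congrArg C.x h), (hC0.1 m).2⟩
  have hq0 := hstar (x a0) (fun m => x (b0 m)) (hq2.trans_le h1)
    (fun m => (hq3 m).trans_le h1) (C.i a0) (fun m => C.i (b0 m)) (hxs a0)
    (fun m => hxs (b0 m))
  refine ⟨C.n, x, C.i, k, ?_, hxs, ?_, ?_, ?_, ?_, a0, ?_, b0, ?_, hq0.2⟩
  · intro a b hab
    by_contra hne
    exact hq1 a b hne hab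
  · intro a b
    exact Nat.add_comm _ _
  · intro a b h
    have h6 := hkedge a b h
    refine ⟨h6.1, ?_⟩
    exact (hok.2 a b h6).2.2.2
  · intro a
    -- every vertex has a neighbour
    obtain ⟨y, hy⟩ : ∃ y, ε ≤ dist (C.x a) y := by
      by_contra hcon
      push Not at hcon
      have h6 := hcon u
      have h7 := hcon (P 0)
      have h8 := dist_triangle_left u (P 0) (C.x a)
      linarith
    have hcont : Continuous fun y => dist (C.x a) y := continuous_const.dist continuous_id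
    obtain ⟨z, hz⟩ := mem_range_of_exists_le_of_exists_ge hcont
      ⟨C.x a, by rw [dist_self]; exact hε.le⟩ ⟨y, hy⟩
    change dist (C.x a) z = ε at hz
    obtain ⟨b, hb⟩ := hdense z
    refine ⟨b, hkpos a b ⟨?_, ?_⟩⟩
    · intro hab
      rw [← hab, dist_comm, hz] at hb
      exact lt_irrefl _ hb
    · have h8 := dist_triangle (C.x a) z (C.x b)
      linarith
  · intro a v
    have h6 : C.dL (fun p => (w' p : ℝ)) q (Pi.single a v) = 0 := by rw [hdL]; rfl
    rw [C.dL_single] at h6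
    have h7 : (D : ℝ) * ∑ b, ((if h : C.edge A.r a b then (w' ⟨(a, b), h⟩ : ℝ) else 0) +
        (if h : C.edge A.r b a then (w' ⟨(b, a), h⟩ : ℝ) else 0)) *
        fderiv ℝ (A.ell (C.i a) (C.i b)) (q a, q b) (v, 0) = 0 := by
      rw [h6]
      simp
    rw [Finset.mul_sum] at h7
    rw [← h7]
    refine Finset.sum_congr rfl fun b _ => ?_
    rw [hcx, hcx, ← mul_assoc]
    congr 1
    simp only [hk]
    rw [mul_add]
    push_cast
    congr 1
    · by_cases h : C.edge A.r a b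
      · rw [dif_pos h, dif_pos h, hmw]
      · rw [dif_neg h, dif_neg h, Nat.cast_zero, mul_zero]
    · by_cases h : C.edge A.r b a
      · rw [dif_pos h, dif_pos h, hmw]
      · rw [dif_neg h, dif_neg h, Nat.cast_zero, mul_zero]
  · exact hballU (mem_ball.2 (hq2.trans_le h2))
  · intro m
    exact hkpos _ _ (hedge0 m)

end Pool.Agent.Helper4Nets
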