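import Pool.Agent.Helper4_Nets.M4.Split

/-! Module M4 of the blueprint, step P4: the limit along rays. -/

set_option autoImplicit false

open Set Filter Topology Metric
open scoped ContDiff

namespace Pool.Agent.Helper4Nets

/-- a function with vanishing second order jet -/
lemma p4_taylor {X : Type*} [NormedAddCommGroup X] [NormedSpace ℝ X] {f : X → ℝ} {x : X}
    (hf : ContDiffAt ℝ 2 f x) (h0 : f x = 0) (h1 : fderiv ℝ f x = 0) (h2 : D2 f x = 0)
    {ε : ℝ} (hε : 0 < ε) :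
    ∃ r > 0, ∀ y ∈ ball x r, DifferentiableAt ℝ f y ∧ ‖fderiv ℝ f y‖ ≤ ε * ‖y - x‖ ∧
      |f y| ≤ ε * ‖y - x‖ ^ 2 := by
  have hd : HasFDerivAt (fderiv ℝ f) (0 : X →L[ℝ] X →L[ℝ] ℝ) x := by
    have h3 : DifferentiableAt ℝ (fderiv ℝ f) x :=
      (contDiffAt_fderiv_of (m := 1) (n := 2) le_rfl hf).differentiableAt (by simp)
    have h4 := h3.hasFDerivAt
    unfold D2 at h2
    rwa [h2] at h4
  have hb := hd.isLittleO.bound hε
  have hc : ∀ᶠ y in 𝓝 x, ContDiffAt ℝ 2 f y := hf.eventually (by simp)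
  obtain ⟨r, hr, hs⟩ := Metric.mem_nhds_iff.1 (inter_mem hb hc)
  have hD : ∀ y ∈ ball x r, DifferentiableAt ℝ f y := by
    intro y hy
    have h3 : ContDiffAt ℝ 2 f y := (hs hy).2
    exact h3.differentiableAt (by simp)
  have hN : ∀ y ∈ ball x r, ‖fderiv ℝ f y‖ ≤ ε * ‖y - x‖ := by
    intro y hy
    have := (hs hy).1
    simpa [h1] using this
  refine ⟨r, hr, fun y hy => ⟨hD y hy, hN y hy, ?_⟩⟩
  have hsub : closedBall x ‖y - x‖ ⊆ ball x r := by
    intro w hw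
    rw [mem_closedBall] at hw
    rw [mem_ball, dist_eq_norm] at hy
    rw [mem_ball]
    exact hw.trans_lt hy
  have key := (convex_closedBall x ‖y - x‖).norm_image_sub_le_of_norm_fderiv_le (𝕜 := ℝ)
    (f := f) (C := ε * ‖y - x‖) (x := x) (y := y)
    (fun w hw => hD w (hsub hw))
    (fun w hw => (hN w (hsub hw)).trans (by
      rw [mem_closedBall, dist_eq_norm] at hw
      gcongr))
    (mem_closedBall_self (norm_nonneg _)) (by rw [mem_closedBall, dist_eq_norm])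
  rw [h0, sub_zero, Real.norm_eq_abs] at key
  calc |f y| ≤ ε * ‖y - x‖ * ‖y - x‖ := key
    _ = ε * ‖y - x‖ ^ 2 := by ring

/-- the identity of STEP 6 at a point `q` close to `m` -/
lemma p4_ident {ρ : E2 → E2 → ℝ} {z : E2} {s : ℝ} {B : Set E2} (h : NiceLocal ρ z s B)
    {ξ : E2 → E2} {m q : E2} (hm : m ∈ B) (hq : q ∈ B) (hne : q ≠ m)
    (hξ : DifferentiableAt ℝ ξ m) {a : ℝ} (hd : DifferentiableAt ℝ (hf ρ ξ a) (q, m)) (w : E2) :
    Dd ρ ξ q m w + lam ρ q m (fderiv ℝ ξ m w) - a * lam ρ q m w =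
      fderiv ℝ (hf ρ ξ a) (q, m) (0, w) / ρ q m -
        lam ρ q m w * (hf ρ ξ a (q, m)) / ρ q m ^ 2 := by
  have hρ := h.pos q hq m hm hne
  -- the derivative of `y ↦ Dρ(q,y)(ξ q, ξ y)` at `m`
  have hin : HasFDerivAt (fun y : E2 => (q, y)) (ContinuousLinearMap.inr ℝ E2 E2) m :=
    (hasFDerivAt_const q m).prodMk (hasFDerivAt_id m)
  have hu : HasFDerivAt (fun y => fderiv ℝ (unc ρ) (q, y) (ξ q, ξ y))
      (Dd ρ ξ q m + (lam ρ q m).comp (fderiv ℝ ξ m)) m := by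
    have h1 : HasFDerivAt (fderiv ℝ (unc ρ)) (D2 (unc ρ) (q, m)) (q, m) :=
      ((contDiffAt_fderiv_of (m := 1) (n := 2) le_rfl (h.unc_cd2 hq hm hne)).differentiableAt
        (by simp)).hasFDerivAt
    have h2 := HasFDerivAt.comp m (g := fderiv ℝ (unc ρ)) (f := fun y : E2 => (q, y)) h1 hin
    have h3 : HasFDerivAt (fun y => (ξ q, ξ y)) ((0 : E2 →L[ℝ] E2).prod (fderiv ℝ ξ m)) m :=
      (hasFDerivAt_const (ξ q) m).prodMk hξ.hasFDerivAt
    have h4 := h2.clm_apply h3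
    refine h4.congr_fderiv ?_
    refine ContinuousLinearMap.ext fun v => ?_
    change fderiv ℝ (unc ρ) (q, m) ((0 : E2 →L[ℝ] E2) v, fderiv ℝ ξ m v) +
      D2 (unc ρ) (q, m) (0, v) (ξ q, ξ m) = Dd ρ ξ q m v + lam ρ q m (fderiv ℝ ξ m v)
    rw [Dd_apply, lam_apply, h.D2_unc_symm hq hm hne (0, v) (ξ q, ξ m)]
    simp only [zero_apply]
    ring
  -- the derivative of `ρ(q,·)`
  have hr : HasFDerivAt (fun y => ρ q y) (lam ρ q m) m := by
    have h1 := (h.unc_diff hq hm hne).hasFDerivAt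
    exact HasFDerivAt.comp m (g := unc ρ) (f := fun y : E2 => (q, y)) h1 hin
  -- the derivative of `hf(q,·)`
  have hk : HasFDerivAt (fun y => hf ρ ξ a (q, y))
      ((fderiv ℝ (hf ρ ξ a) (q, m)).comp (ContinuousLinearMap.inr ℝ E2 E2)) m :=
    HasFDerivAt.comp m (g := hf ρ ξ a) (f := fun y : E2 => (q, y)) hd.hasFDerivAt hin
  have heq : (fun y => hf ρ ξ a (q, y)) =ᶠ[𝓝 m] fun y =>
      ρ q y * fderiv ℝ (unc ρ) (q, y) (ξ q, ξ y) - a * (ρ q y * ρ q y) := by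
    have hyp : ∀ᶠ y in 𝓝 m, y ≠ q := (isOpen_ne).mem_nhds hne.symm
    filter_upwards [hyp, h.nhds hm] with y hy hyB
    unfold hf
    rw [h.fd_sg hq hyB hy.symm]
    simp only [FunLike.coe_smul, Pi.smul_apply, smul_eq_mul, sg]
    ring
  have hk2 := (hr.mul hu).sub ((hr.mul hr).const_mul a)
  have hk3 := hk2.congr_of_eventuallyEq heq
  have e := hk.unique hk3
  have e1 := congrArg (fun L : E2 →L[ℝ] ℝ => L w) e
  have e3 : fderiv ℝ (hf ρ ξ a) (q, m) (0, w) =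
      ρ q m * (Dd ρ ξ q m w + lam ρ q m (fderiv ℝ ξ m w)) +
        fderiv ℝ (unc ρ) (q, m) (ξ q, ξ m) * lam ρ q m w -
        a * (ρ q m * lam ρ q m w + ρ q m * lam ρ q m w) := e1
  have e2 : hf ρ ξ a (q, m) = ρ q m * fderiv ℝ (unc ρ) (q, m) (ξ q, ξ m) -
      a * (ρ q m * ρ q m) := heq.self_of_nhds
  rw [e3, e2]
  field_simp
  ring

theorem p4 : P4 := by
  intro ρ z s B h ξ η hF s₂ hsB m hm hdir hξ a h2 h0 h1 hD p hp hne w
  have hmB : m ∈ B := hsB hm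
  have hpB : p ∈ B := hsB hp
  obtain ⟨e, he, hee⟩ := h.exists_grad hpB hmB hne
  obtain ⟨c, hc, r₁, hr₁, hr₁B, hlow⟩ := h.sg_lower hmB
  set C := 1 / (2 * c) with hC
  have hC0 : 0 < C := by positivity
  set D := Dd ρ ξ p m w + lam ρ p m (fderiv ℝ ξ m w) - a * lam ρ p m w with hDdef
  have key : ∀ ε > 0, |D| ≤ ε * (√C * ‖w‖ + |lam ρ p m w| * C) := by
    intro ε hε
    obtain ⟨r₂, hr₂, ht⟩ := p4_taylor h2 h0 h1 hD hε
    have hW : ball z s₂ ∩ (ball m r₁ ∩ ball m r₂) ∈ 𝓝 m :=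
      inter_mem (isOpen_ball.mem_nhds hm) (inter_mem (ball_mem_nhds m hr₁) (ball_mem_nhds m hr₂))
    obtain ⟨t, ht0, -, q, ⟨hqz, hq1, hq2⟩, hqB, hqm, hqt, hql, -⟩ :=
      h.exists_ray hmB hee hW one_pos
    have hlam : lam ρ p m = lam ρ q m := by
      refine ContinuousLinearMap.ext fun v => ?_
      rw [he v, hql v]
    have hDd := hdir p hp q hqz hne hqm hlam
    have hqm2 : (q, m) ∈ ball (m, m) r₂ := by
      rw [← ball_prod_same]; exact ⟨hq2, mem_ball_self hr₂⟩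
    obtain ⟨d1, d2, d3⟩ := ht (q, m) hqm2
    have hn : ‖((q, m) : E2 × E2) - (m, m)‖ = ‖q - m‖ := by
      simp [Prod.norm_def]
    rw [hn] at d2 d3
    have hid := p4_ident h hmB hqB hqm (hξ.differentiableAt (by simp)) d1 w
    have hDeq : D = fderiv ℝ (hf ρ ξ a) (q, m) (0, w) / ρ q m -
        lam ρ q m w * (hf ρ ξ a (q, m)) / ρ q m ^ 2 := by
      rw [← hid, hDdef, hDd, hlam]
    have hρ := h.pos q hqB m hmB hqm
    have hlo : ‖q - m‖ ^ 2 ≤ C * ρ q m ^ 2 := by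
      have h3 := hlow q hq1 m (mem_ball_self hr₁)
      have h4 : sg ρ (q, m) = ρ q m ^ 2 / 2 := rfl
      rw [h4] at h3
      have h5 : C * ρ q m ^ 2 = ρ q m ^ 2 / 2 / c := by rw [hC]; field_simp
      rw [h5, le_div_iff₀ hc]
      linarith
    have hlo2 : ‖q - m‖ ≤ √C * ρ q m := by
      have h3 : ‖q - m‖ ^ 2 ≤ (√C * ρ q m) ^ 2 := by
        rw [mul_pow, Real.sq_sqrt hC0.le]; exact hlo
      exact le_of_sq_le_sq h3 (by positivity)
    have b1 : |fderiv ℝ (hf ρ ξ a) (q, m) (0, w) / ρ q m| ≤ ε * (√C * ‖w‖) := by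
      rw [abs_div, abs_of_pos hρ, div_le_iff₀ hρ]
      have h3 := ContinuousLinearMap.le_opNorm (fderiv ℝ (hf ρ ξ a) (q, m)) (0, w)
      have h4 : ‖((0, w) : E2 × E2)‖ = ‖w‖ := by simp [Prod.norm_def]
      rw [h4, Real.norm_eq_abs] at h3
      calc |fderiv ℝ (hf ρ ξ a) (q, m) (0, w)| ≤ ‖fderiv ℝ (hf ρ ξ a) (q, m)‖ * ‖w‖ := h3
        _ ≤ (ε * (√C * ρ q m)) * ‖w‖ := by
            gcongr
            exact d2.trans (by gcongr)
        _ = ε * (√C * ‖w‖) * ρ q m := by ring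
    have b2 : |lam ρ q m w * (hf ρ ξ a (q, m)) / ρ q m ^ 2| ≤ ε * (|lam ρ p m w| * C) := by
      rw [abs_div, abs_mul, abs_of_pos (by positivity : 0 < ρ q m ^ 2),
        div_le_iff₀ (by positivity), ← hlam]
      calc |lam ρ p m w| * |hf ρ ξ a (q, m)| ≤ |lam ρ p m w| * (ε * (C * ρ q m ^ 2)) := by
            gcongr
            exact d3.trans (by gcongr)
        _ = ε * (|lam ρ p m w| * C) * ρ q m ^ 2 := by ring
    rw [hDeq]
    refine (abs_sub _ _).trans ?_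
    linarith
  have hD0 : D = 0 := by
    by_contra hcon
    have hpos : 0 < |D| := abs_pos.2 hcon
    set K := √C * ‖w‖ + |lam ρ p m w| * C with hK
    have hK0 : 0 ≤ K := by positivity
    have h3 := key (|D| / (2 * (K + 1))) (by positivity)
    have h4 : |D| / (2 * (K + 1)) * K ≤ |D| / 2 := by
      rw [div_mul_eq_mul_div, div_le_div_iff₀ (by positivity) (by positivity)]
      nlinarith
    linarith
  linarith

end Pool.Agent.Helper4Nets
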