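import Pool.Agent.Helper4_Nets.Defs

/-!
Change of charts for the two-point functions of a good atlas (MP_f059bd_gt, module M8).
-/

set_option autoImplicit false

open Set Filter Topology Metric
open scoped ContDiff

namespace Pool.Agent.Helper4Nets

variable {S : Type} [MetricSpace S]

namespace GoodAtlas

variable (A : GoodAtlas S)

/-- transition map from the chart `i` to the chart `j` -/
noncomputable def tr (i j : A.ι) (q : E2) : E2 := A.c j ((A.c i).symm q)

/-- domain of the transition map -/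
def dom (i j : A.ι) : Set E2 := (A.c i).target ∩ (A.c i).symm ⁻¹' (A.c j).source

theorem dom_open (i j : A.ι) : IsOpen (A.dom i j) :=
  (A.c i).isOpen_inter_preimage_symm (A.c j).open_source

theorem mem_dom_of_mem (i j : A.ι) {x : S} (hi : x ∈ (A.c i).source) (hj : x ∈ (A.c j).source) :
    A.c i x ∈ A.dom i j := by
  refine ⟨(A.c i).map_source hi, ?_⟩
  change (A.c i).symm (A.c i x) ∈ (A.c j).source
  rw [(A.c i).left_inv hi]
  exact hj

theorem tr_apply (i j : A.ι) {x : S} (hi : x ∈ (A.c i).source) :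
    A.tr i j (A.c i x) = A.c j x := by
  unfold tr
  rw [(A.c i).left_inv hi]

theorem tr_contDiffAt (i j : A.ι) {q : E2} (hq : q ∈ A.dom i j) :
    ContDiffAt ℝ 4 (A.tr i j) q :=
  (A.trans i j).contDiffAt ((A.dom_open i j).mem_nhds hq)

theorem tr_differentiableAt (i j : A.ι) {q : E2} (hq : q ∈ A.dom i j) :
    DifferentiableAt ℝ (A.tr i j) q :=
  (A.tr_contDiffAt i j hq).differentiableAt (by norm_num)

theorem symm_tr (i j : A.ι) {q : E2} (hq : q ∈ A.dom i j) :
    (A.c j).symm (A.tr i j q) = (A.c i).symm q := by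
  unfold tr
  exact (A.c j).left_inv hq.2

theorem tr_mem_target (i j : A.ι) {q : E2} (hq : q ∈ A.dom i j) :
    A.tr i j q ∈ (A.c j).target := (A.c j).map_source hq.2

theorem tr_mem_dom (i j : A.ι) {q : E2} (hq : q ∈ A.dom i j) : A.tr i j q ∈ A.dom j i := by
  refine ⟨A.tr_mem_target i j hq, ?_⟩
  change (A.c j).symm (A.tr i j q) ∈ (A.c i).source
  rw [A.symm_tr i j hq]
  exact (A.c i).map_target hq.1

theorem tr_tr (i j : A.ι) {q : E2} (hq : q ∈ A.dom i j) : A.tr j i (A.tr i j q) = q := by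
  have : A.tr j i (A.tr i j q) = A.c i ((A.c j).symm (A.tr i j q)) := rfl
  rw [this, A.symm_tr i j hq]
  exact (A.c i).right_inv hq.1

theorem fderiv_tr_comp (i j : A.ι) {q : E2} (hq : q ∈ A.dom i j) :
    (fderiv ℝ (A.tr j i) (A.tr i j q)).comp (fderiv ℝ (A.tr i j) q) =
      ContinuousLinearMap.id ℝ E2 := by
  have h1 := (A.tr_differentiableAt i j hq).hasFDerivAt
  have h2 := (A.tr_differentiableAt j i (A.tr_mem_dom i j hq)).hasFDerivAt
  have h3 := h2.comp q h1
  have h4 : HasFDerivAt (A.tr j i ∘ A.tr i j) (ContinuousLinearMap.id ℝ E2) q := by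
    refine (hasFDerivAt_id q).congr_of_eventuallyEq ?_
    filter_upwards [(A.dom_open i j).mem_nhds hq] with x hx
    exact A.tr_tr i j hx
  exact h3.unique h4

theorem fderiv_tr_injective (i j : A.ι) {q : E2} (hq : q ∈ A.dom i j) :
    Function.Injective (fderiv ℝ (A.tr i j) q) := by
  intro v w h
  have h1 := congrArg (fun L : E2 →L[ℝ] E2 => L v) (A.fderiv_tr_comp i j hq)
  have h2 := congrArg (fun L : E2 →L[ℝ] E2 => L w) (A.fderiv_tr_comp i j hq)
  simp only [ContinuousLinearMap.comp_apply, ContinuousLinearMap.id_apply] at h1 h2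
  rw [← h1, ← h2, h]

theorem fderiv_tr_surjective (i j : A.ι) {q : E2} (hq : q ∈ A.dom i j) :
    Function.Surjective (fderiv ℝ (A.tr i j) q) := by
  intro v
  have h1 := A.fderiv_tr_comp j i (A.tr_mem_dom i j hq)
  rw [A.tr_tr i j hq] at h1
  have h2 := congrArg (fun L : E2 →L[ℝ] E2 => L v) h1
  exact ⟨_, h2⟩

/-! ### The two-point functions -/

theorem ell_apply (i j : A.ι) (x y : E2) :
    A.ell i j (x, y) = dist ((A.c i).symm x) ((A.c j).symm y) := rfl

theorem ell_swap (i j : A.ι) (p : E2 × E2) : A.ell j i p.swap = A.ell i j p := by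
  unfold ell
  exact dist_comm _ _

theorem ell_contDiffAt (i j : A.ι) {x y : E2} (hx : x ∈ (A.c i).target)
    (hy : y ∈ (A.c j).target) (h0 : 0 < A.ell i j (x, y)) (h1 : A.ell i j (x, y) < A.r) :
    ContDiffAt ℝ 4 (A.ell i j) (x, y) := A.smooth i j x hx y hy h0 h1

theorem ell_continuousAt (i j : A.ι) {x y : E2} (hx : x ∈ (A.c i).target)
    (hy : y ∈ (A.c j).target) : ContinuousAt (A.ell i j) (x, y) := by
  unfold ell
  have h1 : ContinuousAt (fun p : E2 × E2 => (A.c i).symm p.1) (x, y) :=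
    ContinuousAt.comp (f := fun p : E2 × E2 => p.1) ((A.c i).continuousAt_symm hx)
      continuousAt_fst
  have h2 : ContinuousAt (fun p : E2 × E2 => (A.c j).symm p.2) (x, y) :=
    ContinuousAt.comp (f := fun p : E2 × E2 => p.2) ((A.c j).continuousAt_symm hy)
      continuousAt_snd
  exact h1.dist h2

/-- The set of pairs at which `ell i j` is smooth, for which there is a Killing relation. -/
def good (i j : A.ι) : Set (E2 × E2) :=
  {p | p.1 ∈ (A.c i).target ∧ p.2 ∈ (A.c j).target ∧ 0 < A.ell i j p ∧ A.ell i j p < A.r}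

theorem good_open (i j : A.ι) : IsOpen (A.good i j) := by
  rw [isOpen_iff_mem_nhds]
  rintro ⟨x, y⟩ ⟨hx, hy, h0, h1⟩
  have hc := A.ell_continuousAt i j hx hy
  have e1 : ∀ᶠ p : E2 × E2 in 𝓝 (x, y), p.1 ∈ (A.c i).target :=
    continuousAt_fst.eventually ((A.c i).open_target.mem_nhds hx)
  have e2 : ∀ᶠ p : E2 × E2 in 𝓝 (x, y), p.2 ∈ (A.c j).target :=
    continuousAt_snd.eventually ((A.c j).open_target.mem_nhds hy)
  filter_upwards [e1, e2, hc.eventually (lt_mem_nhds h0), hc.eventually (gt_mem_nhds h1)]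
    with p a b c d
  exact ⟨a, b, c, d⟩

theorem good_contDiffAt (i j : A.ι) {p : E2 × E2} (hp : p ∈ A.good i j) :
    ContDiffAt ℝ 4 (A.ell i j) p := by
  obtain ⟨x, y⟩ := p
  exact A.ell_contDiffAt i j hp.1 hp.2.1 hp.2.2.1 hp.2.2.2

theorem good_contDiffAt_fderiv (i j : A.ι) {p : E2 × E2} (hp : p ∈ A.good i j) :
    ContDiffAt ℝ 3 (fderiv ℝ (A.ell i j)) p :=
  (A.good_contDiffAt i j hp).fderiv_right (by norm_num)

theorem good_differentiableAt (i j : A.ι) {p : E2 × E2} (hp : p ∈ A.good i j) :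
    DifferentiableAt ℝ (A.ell i j) p := (A.good_contDiffAt i j hp).differentiableAt (by norm_num)

theorem good_continuousAt_fderiv (i j : A.ι) {p : E2 × E2} (hp : p ∈ A.good i j) :
    ContinuousAt (fderiv ℝ (A.ell i j)) p := (A.good_contDiffAt_fderiv i j hp).continuousAt

theorem good_swap (i j : A.ι) {p : E2 × E2} (hp : p ∈ A.good i j) : p.swap ∈ A.good j i := by
  refine ⟨hp.2.1, hp.1, ?_, ?_⟩
  · rw [A.ell_swap]; exact hp.2.2.1
  · rw [A.ell_swap]; exact hp.2.2.2

theorem ell_swap_comp (i j : A.ι) :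
    A.ell j i = A.ell i j ∘ (ContinuousLinearEquiv.prodComm ℝ E2 E2) := by
  funext p
  exact (A.ell_swap j i p).symm

/-- first derivative of `ell` and exchange of the variables -/
theorem fderiv_ell_swap (i j : A.ι) (x y v w : E2) :
    fderiv ℝ (A.ell j i) (y, x) (w, v) = fderiv ℝ (A.ell i j) (x, y) (v, w) := by
  rw [A.ell_swap_comp i j, ContinuousLinearEquiv.comp_right_fderiv]
  rfl

/-- second derivative of `ell` and exchange of the variables -/
theorem D2_ell_swap (i j : A.ι) (x y v w v' w' : E2) :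
    D2 (A.ell j i) (y, x) (w, v) (w', v') = D2 (A.ell i j) (x, y) (v, w) (v', w') := by
  have h1 : fderiv ℝ (A.ell j i) =
      fun p => (ContinuousLinearMap.compL ℝ (E2 × E2) (E2 × E2) ℝ).flip
        ((ContinuousLinearEquiv.prodComm ℝ E2 E2 : (E2 × E2) ≃L[ℝ] (E2 × E2)) :
          (E2 × E2) →L[ℝ] (E2 × E2)) ((fderiv ℝ (A.ell i j) ∘
          (ContinuousLinearEquiv.prodComm ℝ E2 E2)) p) := by
    funext p
    rw [A.ell_swap_comp i j, ContinuousLinearEquiv.comp_right_fderiv]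
    rfl
  unfold D2
  by_cases hd : DifferentiableAt ℝ (fderiv ℝ (A.ell i j)) (x, y)
  · have h2 : HasFDerivAt (fderiv ℝ (A.ell i j) ∘ (ContinuousLinearEquiv.prodComm ℝ E2 E2))
        ((fderiv ℝ (fderiv ℝ (A.ell i j)) (x, y)).comp
          ((ContinuousLinearEquiv.prodComm ℝ E2 E2 : (E2 × E2) ≃L[ℝ] (E2 × E2)) :
          (E2 × E2) →L[ℝ] (E2 × E2))) (y, x) :=
      HasFDerivAt.comp (y, x) (f := (ContinuousLinearEquiv.prodComm ℝ E2 E2))
        (hd.hasFDerivAt) ((ContinuousLinearEquiv.prodComm ℝ E2 E2).hasFDerivAt)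
    have h3 := (((ContinuousLinearMap.compL ℝ (E2 × E2) (E2 × E2) ℝ).flip
        ((ContinuousLinearEquiv.prodComm ℝ E2 E2 : (E2 × E2) ≃L[ℝ] (E2 × E2)) :
          (E2 × E2) →L[ℝ] (E2 × E2))).hasFDerivAt (x := ((fderiv ℝ (A.ell i j) ∘
          (ContinuousLinearEquiv.prodComm ℝ E2 E2)) (y, x)))).comp (y, x) h2
    rw [h1]
    have h4 := h3.fderiv
    have h5 : (fun p => (ContinuousLinearMap.compL ℝ (E2 × E2) (E2 × E2) ℝ).flip
        ((ContinuousLinearEquiv.prodComm ℝ E2 E2 : (E2 × E2) ≃L[ℝ] (E2 × E2)) :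
          (E2 × E2) →L[ℝ] (E2 × E2)) ((fderiv ℝ (A.ell i j) ∘
          (ContinuousLinearEquiv.prodComm ℝ E2 E2)) p)) =
        (⇑((ContinuousLinearMap.compL ℝ (E2 × E2) (E2 × E2) ℝ).flip
        ((ContinuousLinearEquiv.prodComm ℝ E2 E2 : (E2 × E2) ≃L[ℝ] (E2 × E2)) :
          (E2 × E2) →L[ℝ] (E2 × E2))) ∘ (fderiv ℝ (A.ell i j) ∘
          (ContinuousLinearEquiv.prodComm ℝ E2 E2))) := rfl
    rw [h5, h4]
    rfl
  · have hd' : ¬ DifferentiableAt ℝ (fderiv ℝ (A.ell j i)) (y, x) := by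
      intro hd'
      apply hd
      have h1' : fderiv ℝ (A.ell i j) =
          (⇑((ContinuousLinearMap.compL ℝ (E2 × E2) (E2 × E2) ℝ).flip
        ((ContinuousLinearEquiv.prodComm ℝ E2 E2 : (E2 × E2) ≃L[ℝ] (E2 × E2)) :
          (E2 × E2) →L[ℝ] (E2 × E2))) ∘ (fderiv ℝ (A.ell j i) ∘
          (ContinuousLinearEquiv.prodComm ℝ E2 E2))) := by
        funext p
        rw [A.ell_swap_comp j i, ContinuousLinearEquiv.comp_right_fderiv]
        rfl
      rw [h1']
      refine DifferentiableAt.comp _ (ContinuousLinearMap.differentiableAt _) ?_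
      exact DifferentiableAt.comp (x, y) (f := (ContinuousLinearEquiv.prodComm ℝ E2 E2))
        hd' ((ContinuousLinearEquiv.prodComm ℝ E2 E2).differentiableAt)
    rw [fderiv_zero_of_not_differentiableAt hd, fderiv_zero_of_not_differentiableAt hd']
    rfl

/-- `ell` in different charts -/
theorem ell_tr (i i' j j' : A.ι) {x y : E2} (hx : x ∈ A.dom i i') (hy : y ∈ A.dom j j') :
    A.ell i' j' (A.tr i i' x, A.tr j j' y) = A.ell i j (x, y) := by
  rw [A.ell_apply, A.ell_apply, A.symm_tr i i' hx, A.symm_tr j j' hy]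

theorem good_tr (i i' j j' : A.ι) {x y : E2} (hx : x ∈ A.dom i i') (hy : y ∈ A.dom j j')
    (h : (x, y) ∈ A.good i j) : (A.tr i i' x, A.tr j j' y) ∈ A.good i' j' := by
  refine ⟨A.tr_mem_target i i' hx, A.tr_mem_target j j' hy, ?_, ?_⟩
  · rw [A.ell_tr i i' j j' hx hy]; exact h.2.2.1
  · rw [A.ell_tr i i' j j' hx hy]; exact h.2.2.2

/-- first derivative of `ell` in different charts -/
theorem fderiv_ell_tr (i i' j j' : A.ι) {x y : E2} (hx : x ∈ A.dom i i') (hy : y ∈ A.dom j j')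
    (h : (x, y) ∈ A.good i j) (v w : E2) :
    fderiv ℝ (A.ell i j) (x, y) (v, w) =
      fderiv ℝ (A.ell i' j') (A.tr i i' x, A.tr j j' y)
        (fderiv ℝ (A.tr i i') x v, fderiv ℝ (A.tr j j') y w) := by
  have h1 : HasFDerivAt (fun p : E2 × E2 => (A.tr i i' p.1, A.tr j j' p.2))
      ((fderiv ℝ (A.tr i i') x).prodMap (fderiv ℝ (A.tr j j') y)) (x, y) :=
    HasFDerivAt.prodMap (x, y) (A.tr_differentiableAt i i' hx).hasFDerivAt
      (A.tr_differentiableAt j j' hy).hasFDerivAt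
  have h2 : HasFDerivAt (A.ell i' j') (fderiv ℝ (A.ell i' j') (A.tr i i' x, A.tr j j' y))
      ((fun p : E2 × E2 => (A.tr i i' p.1, A.tr j j' p.2)) (x, y)) :=
    (A.good_differentiableAt i' j' (A.good_tr i i' j j' hx hy h)).hasFDerivAt
  have h3 := h2.comp (x, y) h1
  have h4 : HasFDerivAt (A.ell i j) ((fderiv ℝ (A.ell i' j') (A.tr i i' x, A.tr j j' y)).comp
      ((fderiv ℝ (A.tr i i') x).prodMap (fderiv ℝ (A.tr j j') y))) (x, y) := by
    refine h3.congr_of_eventuallyEq ?_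
    have e1 : ∀ᶠ p : E2 × E2 in 𝓝 (x, y), p.1 ∈ A.dom i i' :=
      continuousAt_fst.eventually ((A.dom_open i i').mem_nhds hx)
    have e2 : ∀ᶠ p : E2 × E2 in 𝓝 (x, y), p.2 ∈ A.dom j j' :=
      continuousAt_snd.eventually ((A.dom_open j j').mem_nhds hy)
    filter_upwards [e1, e2] with p hp1 hp2
    exact (A.ell_tr i i' j j' hp1 hp2).symm
  rw [h4.fderiv]
  rfl

end GoodAtlas

end Pool.Agent.Helper4Nets
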