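import Pool.Agent.Helper83_Nets.Len

/-!
Deformation of a nondegenerate real-weighted net to a rational-weighted one
(MP_f059bd_gt, module M8).
-/

set_option autoImplicit false

open Set Filter Topology Metric
open scoped ContDiff

namespace Pool.Agent.Helper4Nets

/-- An injective linear map from a finite dimensional space to its (continuous) dual is
surjective. -/
theorem surj_dual {Y : Type*} [NormedAddCommGroup Y] [NormedSpace ℝ Y] [FiniteDimensional ℝ Y]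
    (f : Y →L[ℝ] (Y →L[ℝ] ℝ)) (hf : Function.Injective f) : Function.Surjective f := by
  have e1 : Module.finrank ℝ (Y →L[ℝ] ℝ) = Module.finrank ℝ Y := by
    rw [← (LinearMap.toContinuousLinearMap (𝕜 := ℝ) (E := Y) (F' := ℝ)).finrank_eq]
    exact Subspace.dual_finrank_eq
  exact (LinearMap.injective_iff_surjective_of_finrank_eq_finrank
    (f := (f : Y →ₗ[ℝ] (Y →L[ℝ] ℝ))) e1.symm).1 hf

theorem exists_rat_mem {e : Type} [Finite e] (V : Set (e → ℝ)) (w : e → ℝ) (hV : V ∈ 𝓝 w) :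
    ∃ u : e → ℚ, (fun i => (u i : ℝ)) ∈ V := by
  have hd : Dense (Set.pi Set.univ fun _ : e => Set.range ((↑) : ℚ → ℝ)) :=
    dense_pi _ fun _ _ => Rat.denseRange_cast
  obtain ⟨v, hv, hv'⟩ := hd.inter_nhds_nonempty hV
  choose u hu using fun i => hv i (Set.mem_univ i)
  refine ⟨u, ?_⟩
  have : (fun i => (u i : ℝ)) = v := funext hu
  rw [this]
  exact hv'

/-- The condition that the vectors `κ j q` together with the image of `ι` span is open. -/
theorem span_open {T Y : Type} [NormedAddCommGroup T] [NormedSpace ℝ T] [FiniteDimensional ℝ T]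
    [NormedAddCommGroup Y] [NormedSpace ℝ Y] [FiniteDimensional ℝ Y] (ι : Y →L[ℝ] T) {d : ℕ}
    (κ : Fin d → T → T) (q₀ : T) (hκ : ∀ j, ContinuousAt (κ j) q₀)
    (hinj : ∀ y (c : Fin d → ℝ), ι y + ∑ j, c j • κ j q₀ = 0 → y = 0 ∧ c = 0)
    (hsurj : ∀ ξ, ∃ y, ∃ c : Fin d → ℝ, ι y + ∑ j, c j • κ j q₀ = ξ) :
    ∀ᶠ q in 𝓝 q₀, ∀ ξ, ∃ y, ∃ c : Fin d → ℝ, ι y + ∑ j, c j • κ j q = ξ := by
  set M : T → (Y × (Fin d → ℝ)) →L[ℝ] T :=
    fun q => ι.comp (ContinuousLinearMap.fst ℝ _ _) +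
      ∑ j, (ContinuousLinearMap.toSpanSingleton ℝ (κ j q)).comp
        ((ContinuousLinearMap.proj j).comp (ContinuousLinearMap.snd ℝ _ _)) with hM
  have hMa : ∀ q z, M q z = ι z.1 + ∑ j, z.2 j • κ j q := by
    intro q z
    simp only [hM, add_apply, sum_apply]
    rfl
  have hMc : ContinuousAt M q₀ := by
    refine ContinuousAt.add continuousAt_const ?_
    refine tendsto_finsetSum _ fun j _ => ?_
    refine ContinuousAt.clm_comp ?_ continuousAt_const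
    have h1 : Continuous fun v : T =>
        (ContinuousLinearMap.toSpanSingleton ℝ v : ℝ →L[ℝ] T) :=
      (ContinuousLinearMap.toSpanSingletonLIE ℝ T).continuous
    exact h1.continuousAt.comp (hκ j)
  have hMinj : Function.Injective (M q₀) := by
    rw [injective_iff_map_eq_zero]
    intro z hz
    rw [hMa] at hz
    exact Prod.ext (hinj _ _ hz).1 (hinj _ _ hz).2
  have hMsurj : Function.Surjective (M q₀) := by
    intro ξ
    obtain ⟨y, c, h⟩ := hsurj ξ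
    exact ⟨(y, c), by rw [hMa]; exact h⟩
  obtain ⟨eM, heM⟩ : ∃ e : (Y × (Fin d → ℝ)) ≃L[ℝ] T,
      (e : (Y × (Fin d → ℝ)) →L[ℝ] T) = M q₀ := by
    refine ⟨(LinearEquiv.ofBijective ((M q₀ : (Y × (Fin d → ℝ)) →ₗ[ℝ] T))
      ⟨hMinj, hMsurj⟩).toContinuousLinearEquiv, ?_⟩
    refine ContinuousLinearMap.ext fun v => rfl
  have h1 : ∀ᶠ q in 𝓝 q₀, M q ∈ Set.range
      ((fun e : (Y × (Fin d → ℝ)) ≃L[ℝ] T => (e : (Y × (Fin d → ℝ)) →L[ℝ] T))) := by
    refine hMc.eventually ?_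
    rw [← heM]
    exact ContinuousLinearEquiv.nhds eM
  filter_upwards [h1] with q hq ξ
  obtain ⟨e', he'⟩ := hq
  obtain ⟨z, hz⟩ := e'.surjective ξ
  refine ⟨z.1, z.2, ?_⟩
  rw [← hMa, ← he']
  exact hz

/-- The inverse function theorem part. -/
theorem critical_open {T Y e : Type} [NormedAddCommGroup T] [NormedSpace ℝ T]
    [FiniteDimensional ℝ T] [NormedAddCommGroup Y] [NormedSpace ℝ Y] [FiniteDimensional ℝ Y]
    [Fintype e] (ι : Y →L[ℝ] T) (f : e → T → (T →L[ℝ] ℝ)) (f' : e → T →L[ℝ] (T →L[ℝ] ℝ))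
    (q₀ : T) (hf : ∀ p, HasStrictFDerivAt (f p) (f' p) q₀) (w₀ : e → ℝ)
    (hcrit : ∑ p, w₀ p • f p q₀ = 0)
    (hnd : ∀ y, (∀ y', ∑ p, w₀ p * f' p (ι y) (ι y') = 0) → y = 0)
    {P : (e → ℝ) → T → Prop} (hP : ∀ᶠ z : (e → ℝ) × T in 𝓝 (w₀, q₀), P z.1 z.2) :
    ∀ᶠ w in 𝓝 w₀, ∃ q, P w q ∧ ∀ y, ∑ p, w p * f p q (ι y) = 0 := by
  set rs : (T →L[ℝ] ℝ) →L[ℝ] (Y →L[ℝ] ℝ) :=
    (ContinuousLinearMap.compL ℝ Y T ℝ).flip ι with hrs
  set g : e → Y → (Y →L[ℝ] ℝ) := fun p y => rs (f p (q₀ + ι y)) with hg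
  set g' : e → Y →L[ℝ] (Y →L[ℝ] ℝ) := fun p => rs.comp ((f' p).comp ι) with hg'
  have hgd : ∀ p, HasStrictFDerivAt (g p) (g' p) 0 := by
    intro p
    have h1 : HasStrictFDerivAt (fun y : Y => q₀ + ι y) ι 0 :=
      (ι.hasStrictFDerivAt).const_add q₀
    have h2 : HasStrictFDerivAt (f p) (f' p) ((fun y : Y => q₀ + ι y) 0) := by
      simpa using hf p
    exact (rs.hasStrictFDerivAt).comp (0 : Y) (h2.comp (0 : Y) h1)
  set Φ : (e → ℝ) × Y → (e → ℝ) × (Y →L[ℝ] ℝ) :=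
    fun z => (z.1, ∑ p, z.1 p • g p z.2) with hΦ
  set Φ' : (e → ℝ) × Y →L[ℝ] (e → ℝ) × (Y →L[ℝ] ℝ) :=
    (ContinuousLinearMap.fst ℝ _ _).prod (∑ p, (w₀ p • ((g' p).comp
      (ContinuousLinearMap.snd ℝ (e → ℝ) Y)) + ((ContinuousLinearMap.proj p).comp
      (ContinuousLinearMap.fst ℝ (e → ℝ) Y)).smulRight (g p 0))) with hΦ'
  have hΦd : HasStrictFDerivAt Φ Φ' (w₀, 0) := by
    refine HasStrictFDerivAt.prodMk hasStrictFDerivAt_fst ?_
    refine HasStrictFDerivAt.fun_sum fun p _ => ?_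
    have h1 : HasStrictFDerivAt (fun z : (e → ℝ) × Y => z.1 p)
        ((ContinuousLinearMap.proj p).comp (ContinuousLinearMap.fst ℝ (e → ℝ) Y))
        (w₀, 0) :=
      (((ContinuousLinearMap.proj (R := ℝ) (φ := fun _ : e => ℝ) p).comp
        (ContinuousLinearMap.fst ℝ (e → ℝ) Y)) : (e → ℝ) × Y →L[ℝ] ℝ).hasStrictFDerivAt
    have h2 : HasStrictFDerivAt (fun z : (e → ℝ) × Y => g p z.2)
        ((g' p).comp (ContinuousLinearMap.snd ℝ (e → ℝ) Y)) (w₀, 0) := by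
      have h3 : HasStrictFDerivAt (fun z : (e → ℝ) × Y => z.2)
        (ContinuousLinearMap.snd ℝ (e → ℝ) Y) (w₀, 0) :=
        (ContinuousLinearMap.snd ℝ (e → ℝ) Y).hasStrictFDerivAt
      exact HasStrictFDerivAt.comp (w₀, (0 : Y)) (g := g p) (hgd p) h3
    exact h1.smul h2
  -- surjectivity of the derivative
  set Qm : Y →L[ℝ] (Y →L[ℝ] ℝ) := ∑ p, w₀ p • g' p with hQm
  have hQa : ∀ y y' : Y, Qm y y' = ∑ p, w₀ p * f' p (ι y) (ι y') := by
    intro y y'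
    simp only [hQm, sum_apply]
    rfl
  have hQinj : Function.Injective Qm := by
    rw [injective_iff_map_eq_zero]
    intro y hy
    refine hnd y fun y' => ?_
    rw [← hQa, hy]
    rfl
  have hQsurj := surj_dual Qm hQinj
  have hΦs : (Φ' : (e → ℝ) × Y →ₗ[ℝ] (e → ℝ) × (Y →L[ℝ] ℝ)).range = ⊤ := by
    rw [LinearMap.range_eq_top]
    rintro ⟨w, φ⟩
    obtain ⟨y, hy⟩ := hQsurj (φ - ∑ p, w p • g p 0)
    refine ⟨(w, y), ?_⟩
    refine Prod.ext rfl ?_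
    have h1 : (Φ' (w, y)).2 = Qm y + ∑ p, w p • g p 0 := by
      simp only [hΦ', hQm, ContinuousLinearMap.prod_apply, sum_apply, add_apply,
        Finset.sum_add_distrib]
      rfl
    exact h1.trans (by rw [hy]; exact sub_add_cancel _ _)
  have hmap := hΦd.map_nhds_eq_of_surj hΦs
  have hΦ0 : Φ (w₀, 0) = (w₀, 0) := by
    refine Prod.ext rfl ?_
    have h1 : (Φ (w₀, 0)).2 = rs (∑ p, w₀ p • f p q₀) := by
      simp only [hΦ, hg, map_sum, map_smul, map_zero, add_zero]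
    rw [h1, hcrit, map_zero]
  have hadd : Tendsto (fun z : (e → ℝ) × Y => (z.1, q₀ + ι z.2)) (𝓝 (w₀, 0))
      (𝓝 (w₀, q₀)) := by
    have h1 : ContinuousAt (fun z : (e → ℝ) × Y => (z.1, q₀ + ι z.2)) (w₀, 0) := by
      fun_prop
    have := h1.tendsto
    simpa using this
  have hev := hadd.eventually hP
  have hV : Φ '' {z | P z.1 (q₀ + ι z.2)} ∈ 𝓝 ((w₀, 0) : (e → ℝ) × (Y →L[ℝ] ℝ)) := by
    rw [← hΦ0, ← hmap]
    exact image_mem_map hev
  have h1 : ContinuousAt (fun w : e → ℝ => ((w, 0) : (e → ℝ) × (Y →L[ℝ] ℝ))) w₀ := by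
    fun_prop
  filter_upwards [h1.preimage_mem_nhds hV] with w hw
  obtain ⟨z, hz1, hz⟩ := hw
  have hzu : z.1 = w := congrArg Prod.fst hz
  have hz5 : ∑ p, z.1 p • g p z.2 = 0 := congrArg Prod.snd hz
  refine ⟨q₀ + ι z.2, by rw [← hzu]; exact hz1, fun y => ?_⟩
  have := congrArg (fun L : Y →L[ℝ] ℝ => L y) hz5
  simp only [sum_apply, hzu] at this
  exact this

variable {S : Type} [MetricSpace S] {A : GoodAtlas S}

namespace Config

variable (C : Config A)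

theorem deform (hD : Directions) (w₀ : C.Edge → ℝ) (hw₀ : ∀ p, 0 < w₀ p)
    (hcrit : C.dL w₀ C.q = 0)
    (hker : ∀ ξ : Fin C.n → E2, (∀ ζ, ∑ p : C.Edge, w₀ p * C.d2 p.1.1 p.1.2 ξ ζ = 0) →
      ∃ k ∈ A.Killing, C.restr k = ξ)
    {P : (Fin C.n → E2) → Prop} (hP : ∀ᶠ q in 𝓝 C.q, P q) :
    ∃ (w : C.Edge → ℚ) (q : Fin C.n → E2), (∀ p, 0 < w p) ∧ P q ∧ C.Ok q ∧
      C.dL (fun p => (w p : ℝ)) q = 0 := by
  classical
  -- the second variation
  set B : (Fin C.n → E2) →L[ℝ] (Fin C.n → E2) →L[ℝ] ℝ :=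
    ∑ p : C.Edge, w₀ p • C.ddlen p.1.1 p.1.2 with hB
  have hBa : ∀ ξ ζ, B ξ ζ = ∑ p : C.Edge, w₀ p * C.d2 p.1.1 p.1.2 ξ ζ := by
    intro ξ ζ
    simp only [hB, sum_apply]
    rfl
  have hBs : ∀ ξ ζ, B ξ ζ = B ζ ξ := by
    intro ξ ζ
    rw [hBa, hBa]
    exact Finset.sum_congr rfl fun p _ => by rw [C.d2_comm p.2]
  set N : Submodule ℝ (Fin C.n → E2) :=
    LinearMap.ker (B : (Fin C.n → E2) →ₗ[ℝ] ((Fin C.n → E2) →L[ℝ] ℝ)) with hN
  have hNmem : ∀ ξ, ξ ∈ N ↔ ∀ ζ, B ξ ζ = 0 := by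
    intro ξ
    rw [hN, LinearMap.mem_ker]
    constructor
    · intro h ζ
      have := congrArg (fun L : (Fin C.n → E2) →L[ℝ] ℝ => L ζ) h
      simpa using this
    · intro h
      ext ζ
      exact h ζ
  obtain ⟨Y, hY⟩ := Submodule.exists_isCompl N
  -- a basis of `N` made of Killing fields
  set bN := Module.finBasis ℝ N with hbN
  have hk : ∀ j, ∃ k ∈ A.Killing, C.restr k = (bN j : Fin C.n → E2) := by
    intro j
    refine hker _ fun ζ => ?_
    rw [← hBa]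
    exact (hNmem _).1 (bN j).2 ζ
  choose k hkK hkr using hk
  have hsumN : ∀ c : Fin (Module.finrank ℝ N) → ℝ,
      (∑ j, c j • (bN j : Fin C.n → E2)) = ((∑ j, c j • bN j : N) : Fin C.n → E2) := by
    intro c
    simp
  have hspan := span_open (T := Fin C.n → E2) (Y := Y) Y.subtypeL
    (fun j q => C.kval (k j) q) C.q (fun j => C.kval_continuousAt hD (hkK j)) (by
      intro y c h
      simp only [C.kval_q, hkr] at h
      rw [hsumN] at h
      have h1 : (y : Fin C.n → E2) = -((∑ j, c j • bN j : N) : Fin C.n → E2) :=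
        eq_neg_of_add_eq_zero_left h
      have h2 : (y : Fin C.n → E2) ∈ N := by
        rw [h1]
        exact N.neg_mem (Submodule.coe_mem _)
      have h3 : (y : Fin C.n → E2) = 0 := by
        have := hY.disjoint.le_bot (⟨h2, y.2⟩ : (y : Fin C.n → E2) ∈ N ⊓ Y)
        simpa using this
      have h4 : (∑ j, c j • bN j : N) = 0 := by
        rw [h3] at h1
        have h5 : ((∑ j, c j • bN j : N) : Fin C.n → E2) = 0 := neg_eq_zero.1 h1.symm
        exact_mod_cast h5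
      refine ⟨by exact_mod_cast h3, ?_⟩
      funext j
      exact Fintype.linearIndependent_iff.1 bN.linearIndependent c h4 j) (by
      intro ξ
      have h1 : ξ ∈ N ⊔ Y := by rw [hY.sup_eq_top]; trivial
      obtain ⟨u, hu, y, hy, rfl⟩ := Submodule.mem_sup.1 h1
      refine ⟨⟨y, hy⟩, bN.repr ⟨u, hu⟩, ?_⟩
      simp only [C.kval_q, hkr]
      rw [hsumN, bN.sum_repr]
      exact add_comm _ _)
  have hpos : ∀ᶠ z : (C.Edge → ℝ) × (Fin C.n → E2) in 𝓝 (w₀, C.q), ∀ p, 0 < z.1 p := by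
    rw [eventually_all]
    intro p
    have : ContinuousAt (fun z : (C.Edge → ℝ) × (Fin C.n → E2) => z.1 p) (w₀, C.q) := by
      fun_prop
    exact this.eventually (lt_mem_nhds (hw₀ p))
  have hsnd : Tendsto (fun z : (C.Edge → ℝ) × (Fin C.n → E2) => z.2) (𝓝 (w₀, C.q))
      (𝓝 C.q) := continuousAt_snd
  have hev := hpos.and (hsnd.eventually ((hP.and C.ok_nhds).and hspan))
  have hcr := critical_open (T := Fin C.n → E2) (Y := Y) (e := C.Edge) Y.subtypeL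
    (fun p => C.dlen p.1.1 p.1.2) (fun p => C.ddlen p.1.1 p.1.2) C.q
    (fun p => C.hasStrictFDerivAt_dlen p.2) w₀ hcrit (by
      intro y hy
      have h1 : (y : Fin C.n → E2) ∈ N := by
        rw [hNmem]
        intro ζ
        have h2 : ζ ∈ N ⊔ Y := by rw [hY.sup_eq_top]; trivial
        obtain ⟨u, hu, y', hy', rfl⟩ := Submodule.mem_sup.1 h2
        rw [map_add, hBs _ u, (hNmem u).1 hu, zero_add, hBa]
        exact hy ⟨y', hy'⟩
      have := hY.disjoint.le_bot (⟨h1, y.2⟩ : (y : Fin C.n → E2) ∈ N ⊓ Y)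
      simpa using this) (P := fun z1 z2 => (∀ p, 0 < z1 p) ∧ ((P z2 ∧ C.Ok z2) ∧
        ∀ ξ, ∃ y, ∃ c : Fin (Module.finrank ℝ N) → ℝ,
          Y.subtypeL y + ∑ j, c j • C.kval (k j) z2 = ξ)) hev
  obtain ⟨u, hu⟩ := exists_rat_mem _ _ hcr
  obtain ⟨q, ⟨hz1, ⟨hz2, hz3⟩, hz4⟩, hz5⟩ := hu
  refine ⟨u, q, fun p => ?_, hz2, hz3, ?_⟩
  · have h0 : (0 : ℝ) < (u p : ℝ) := hz1 p
    exact_mod_cast h0
  have h1 : ∀ y : Y, C.dL (fun p => (u p : ℝ)) q y = 0 := by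
    intro y
    rw [dL_apply]
    exact hz5 y
  ext ξ
  obtain ⟨y, c, rfl⟩ := hz4 ξ
  rw [map_add, map_sum]
  have h2 : C.dL (fun p => (u p : ℝ)) q (Y.subtypeL y) = 0 := h1 y
  rw [h2, zero_add]
  simp only [map_smul, C.dL_kval (hkK _) hz3, smul_zero, Finset.sum_const_zero]
  rfl

end Config

end Pool.Agent.Helper4Nets
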