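import Pool.Agent.Helper83_Nets.Charts

/-!
Killing fields of a good atlas are continuous in every chart (MP_f059bd_gt, M7 step 1 / M8).
-/

set_option autoImplicit false

open Set Filter Topology Metric
open scoped ContDiff

namespace Pool.Agent.Helper4Nets

variable {S : Type} [MetricSpace S]

/-- the coordinate covectors of the plane -/
noncomputable def coordL (l : Fin 2) : E2 →L[ℝ] ℝ := EuclideanSpace.proj l

theorem coordL_apply (l : Fin 2) (v : E2) : coordL l v = v l := rfl

theorem coordL_ne_zero (l : Fin 2) : coordL l ≠ 0 := by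
  intro h
  have := congrArg (fun L : E2 →L[ℝ] ℝ => L (EuclideanSpace.single l 1)) h
  simp [coordL_apply] at this

namespace GoodAtlas

variable (A : GoodAtlas S)

/-- In the neighbourhood of every point there are two base points, arbitrarily close, with
independent differentials of the distance; quantitative form in an arbitrary chart. -/
theorem exists_base_points (hD : Directions) (i : A.ι) {x0 : E2} (hx0 : x0 ∈ (A.c i).target)
    (n : ℕ) (l : Fin n → E2 →L[ℝ] ℝ) (hl : ∀ m, l m ≠ 0) :
    ∃ (j : A.ι) (p : Fin n → E2), x0 ∈ A.dom i j ∧ (∀ m, (x0, p m) ∈ A.good i j) ∧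
      ∀ m, ∃ t > 0, ∀ v : E2, fderiv ℝ (A.ell i j) (x0, p m) (v, 0) =
        t * l m (fderiv ℝ (A.tr i j) x0 v) := by
  obtain ⟨j, hj, s, B, hBt, hBr, hN⟩ := A.nice ((A.c i).symm x0)
  have hxd : x0 ∈ A.dom i j := ⟨hx0, hj⟩
  have hm : A.c j ((A.c i).symm x0) ∈ B := hN.ball_sub (mem_ball_self hN.s_pos)
  have key : ∀ m : Fin n, ∃ p ∈ B, p ≠ A.c j ((A.c i).symm x0) ∧
      ∃ t > 0, ∀ w, fderiv ℝ (unc (fun x y => dist ((A.c j).symm x) ((A.c j).symm y)))
        (p, A.c j ((A.c i).symm x0)) (0, w) = t * l m w := by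
    intro m
    obtain ⟨p, hp, hne, -, t, ht, h⟩ := hD _ _ _ _ hN _ hm (l m) (hl m) 1 one_pos
    exact ⟨p, hp, hne, t, ht, h⟩
  choose p hpB hpne t ht hpt using key
  have hgood : ∀ m, (x0, p m) ∈ A.good i j := by
    intro m
    have e : A.ell i j (x0, p m) =
        dist ((A.c j).symm (p m)) ((A.c j).symm (A.c j ((A.c i).symm x0))) := by
      rw [A.ell_apply, (A.c j).left_inv hj, dist_comm]
    refine ⟨hx0, hBt (hpB m), ?_, ?_⟩
    · rw [e]; exact hN.pos _ (hpB m) _ hm (hpne m)
    · rw [e]; exact hBr _ (hpB m) _ hm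
  refine ⟨j, p, hxd, hgood, fun m => ⟨t m, ht m, fun v => ?_⟩⟩
  have hpd : p m ∈ A.dom j j := ⟨hBt (hpB m), (A.c j).map_target (hBt (hpB m))⟩
  have h1 := A.fderiv_ell_tr i j j j hxd hpd (hgood m) v 0
  have h2 : A.tr j j (p m) = p m := (A.c j).right_inv (hBt (hpB m))
  rw [h1, h2, map_zero]
  have h3 := A.fderiv_ell_swap j j (p m) (A.tr i j x0) 0 (fderiv ℝ (A.tr i j) x0 v)
  rw [h3]
  exact hpt m _

/-- Killing fields are continuous. -/
theorem killing_continuousAt (hD : Directions) {k : A.ι → E2 → E2} (hk : k ∈ A.Killing)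
    (i : A.ι) {x0 : E2} (hx0 : x0 ∈ (A.c i).target) : ContinuousAt (k i) x0 := by
  obtain ⟨j, p, hxd, hgood, hp⟩ := A.exists_base_points hD i hx0 2 coordL coordL_ne_zero
  choose t ht hpt using hp
  -- the matrix of the relations
  set G : Fin 2 → E2 → E2 →L[ℝ] ℝ := fun l x => (fderiv ℝ (A.ell i j) (x, p l)).comp
      (ContinuousLinearMap.inl ℝ E2 E2) with hG
  set M : E2 → E2 →L[ℝ] E2 := fun x =>
    ∑ l, (ContinuousLinearMap.toSpanSingleton ℝ (EuclideanSpace.single l (1 : ℝ))).comp (G l x)
    with hM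
  have hMa : ∀ x v l, M x v l = fderiv ℝ (A.ell i j) (x, p l) (v, 0) := by
    intro x v l
    simp only [hM, hG, sum_apply, ContinuousLinearMap.comp_apply,
      ContinuousLinearMap.toSpanSingleton_apply, ContinuousLinearMap.inl_apply]
    fin_cases l <;> simp [Fin.sum_univ_two]
  have hfc : ∀ l : Fin 2, ContinuousAt (fun x : E2 => fderiv ℝ (A.ell i j) (x, p l)) x0 := by
    intro l
    exact ContinuousAt.comp (f := fun x : E2 => (x, p l))
      (A.good_continuousAt_fderiv i j (hgood l)) (by fun_prop)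
  have hMc : ContinuousAt M x0 := by
    refine tendsto_finsetSum _ fun l _ => ?_
    exact ContinuousAt.clm_comp continuousAt_const ((hfc l).clm_comp continuousAt_const)
  have hMinj : Function.Injective (M x0) := by
    intro v w hvw
    apply A.fderiv_tr_injective i j hxd
    ext l
    have h1 := congrArg (fun u : E2 => u l) hvw
    simp only [hMa, hpt, coordL_apply] at h1
    exact mul_left_cancel₀ (ht l).ne' h1
  obtain ⟨e, he⟩ : ∃ e : E2 ≃L[ℝ] E2, (e : E2 →L[ℝ] E2) = M x0 := by
    have hb : Function.Bijective (M x0) :=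
      ⟨hMinj, (LinearMap.injective_iff_surjective (f := (M x0 : E2 →ₗ[ℝ] E2))).1 hMinj⟩
    refine ⟨(LinearEquiv.ofBijective (M x0 : E2 →ₗ[ℝ] E2) hb).toContinuousLinearEquiv, ?_⟩
    ext v : 1
    rfl
  -- right-hand side
  set b : E2 → E2 := fun x =>
    ∑ l, (-(fderiv ℝ (A.ell i j) (x, p l) (0, k j (p l)))) • EuclideanSpace.single l (1 : ℝ)
    with hb
  have hbc : ContinuousAt b x0 := by
    refine tendsto_finsetSum _ fun l _ => ?_
    exact ContinuousAt.smul (((hfc l).clm_apply continuousAt_const).neg) continuousAt_const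
  have hinv : ContinuousAt (fun x => ContinuousLinearMap.inverse (M x)) x0 := by
    have h1 : ContinuousAt (ContinuousLinearMap.inverse : (E2 →L[ℝ] E2) → (E2 →L[ℝ] E2))
        (M x0) := by
      rw [← he]
      exact (contDiffAt_map_inverse (n := 0) e).continuousAt
    exact ContinuousAt.comp h1 hMc
  have hev : k i =ᶠ[𝓝 x0] fun x => ContinuousLinearMap.inverse (M x) (b x) := by
    have e1 : ∀ᶠ x in 𝓝 x0, ∀ l, (x, p l) ∈ A.good i j := by
      rw [eventually_all]
      intro l
      have : ContinuousAt (fun x : E2 => (x, p l)) x0 := by fun_prop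
      exact this.eventually ((A.good_open i j).mem_nhds (hgood l))
    have e2 : ∀ᶠ x in 𝓝 x0, M x ∈ Set.range
        ((fun e : E2 ≃L[ℝ] E2 => (e : E2 →L[ℝ] E2))) := by
      refine hMc.eventually ?_
      rw [← he]
      exact ContinuousLinearEquiv.nhds e
    filter_upwards [e1, e2] with x h1 h2
    obtain ⟨e', he'⟩ := h2
    have h3 : M x (k i x) = b x := by
      ext l
      rw [hMa]
      have h4 := hk i j x (h1 l).1 (p l) (h1 l).2.1 (h1 l).2.2.1 (h1 l).2.2.2
      have h5 : ((k i x, k j (p l)) : E2 × E2) = (k i x, 0) + (0, k j (p l)) := by simp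
      rw [h5, map_add] at h4
      have h6 : b x l = -(fderiv ℝ (A.ell i j) (x, p l) (0, k j (p l))) := by
        simp only [hb]
        fin_cases l <;> simp [Fin.sum_univ_two]
      rw [h6]
      linarith
    have h7 : ContinuousLinearMap.inverse (M x) = (e'.symm : E2 →L[ℝ] E2) := by
      rw [← he']
      exact ContinuousLinearMap.inverse_equiv e'
    rw [h7, ← h3, ← he']
    simp
  refine ContinuousAt.congr ?_ hev.symm
  exact hinv.clm_apply hbc

/-- Killing fields are continuous. -/
theorem killing_continuousOn (hD : Directions) {k : A.ι → E2 → E2} (hk : k ∈ A.Killing)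
    (i : A.ι) : ContinuousOn (k i) (A.c i).target := fun _ hx =>
  (A.killing_continuousAt hD hk i hx).continuousWithinAt

end GoodAtlas

end Pool.Agent.Helper4Nets
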