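import Pool.Agent.Helper83_Nets.KillingCont

/-!
Length functionals of a configuration (MP_f059bd_gt, module M8).
-/

set_option autoImplicit false

open Set Filter Topology Metric
open scoped ContDiff

namespace Pool.Agent.Helper4Nets

variable {S : Type} [MetricSpace S] {A : GoodAtlas S}

/-- second derivatives are symmetric -/
theorem D2_symm_of_contDiffAt {X : Type*} [NormedAddCommGroup X] [NormedSpace ℝ X] {f : X → ℝ}
    {x : X} (hf : ContDiffAt ℝ 4 f x) (v w : X) : D2 f x v w = D2 f x w v :=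
  (hf.isSymmSndFDerivAt (by simp [minSmoothness_of_isRCLikeNormedField]; norm_num)) v w

namespace Config

variable (C : Config A)

/-- projection to a pair of coordinates -/
noncomputable def prj (a b : Fin C.n) : (Fin C.n → E2) →L[ℝ] E2 × E2 :=
  (ContinuousLinearMap.proj a).prod (ContinuousLinearMap.proj b)

@[simp] theorem prj_apply (a b : Fin C.n) (q : Fin C.n → E2) : C.prj a b q = (q a, q b) := rfl

/-- differential of the distance between the points `a` and `b` of the configuration with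
coordinates `q` -/
noncomputable def dlen (a b : Fin C.n) (q : Fin C.n → E2) : (Fin C.n → E2) →L[ℝ] ℝ :=
  (fderiv ℝ (A.ell (C.i a) (C.i b)) (q a, q b)).comp (C.prj a b)

theorem dlen_apply (a b : Fin C.n) (q ξ : Fin C.n → E2) :
    C.dlen a b q ξ = fderiv ℝ (A.ell (C.i a) (C.i b)) (q a, q b) (ξ a, ξ b) := rfl

theorem dlen_q (a b : Fin C.n) (ξ : Fin C.n → E2) : C.dlen a b C.q ξ = C.d1 a b ξ := rfl

/-- the second derivative as a continuous linear map -/
noncomputable def ddlen (a b : Fin C.n) :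
    (Fin C.n → E2) →L[ℝ] (Fin C.n → E2) →L[ℝ] ℝ :=
  ((ContinuousLinearMap.compL ℝ (Fin C.n → E2) (E2 × E2) ℝ).flip (C.prj a b)).comp
    ((fderiv ℝ (fderiv ℝ (A.ell (C.i a) (C.i b))) (C.q a, C.q b)).comp (C.prj a b))

theorem ddlen_apply (a b : Fin C.n) (ξ ζ : Fin C.n → E2) :
    C.ddlen a b ξ ζ = C.d2 a b ξ ζ := rfl

theorem q_mem_target (a : Fin C.n) : C.q a ∈ (A.c (C.i a)).target :=
  (A.c (C.i a)).map_source (A.K_sub _ (C.mem a))

theorem symm_q (a : Fin C.n) : (A.c (C.i a)).symm (C.q a) = C.x a :=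
  (A.c (C.i a)).left_inv (A.K_sub _ (C.mem a))

theorem edge_good {a b : Fin C.n} (h : C.edge A.r a b) :
    (C.q a, C.q b) ∈ A.good (C.i a) (C.i b) := by
  have e : A.ell (C.i a) (C.i b) (C.q a, C.q b) = dist (C.x a) (C.x b) := by
    rw [A.ell_apply, C.symm_q, C.symm_q]
  refine ⟨C.q_mem_target a, C.q_mem_target b, ?_, ?_⟩
  · rw [e]; exact dist_pos.2 fun h' => h.1 (C.inj h')
  · rw [e]; exact h.2

theorem edge_symm {a b : Fin C.n} (h : C.edge A.r a b) : C.edge A.r b a :=
  ⟨h.1.symm, by rw [dist_comm]; exact h.2⟩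

theorem hasStrictFDerivAt_dlen {a b : Fin C.n} (h : C.edge A.r a b) :
    HasStrictFDerivAt (C.dlen a b) (C.ddlen a b) C.q := by
  have h1 : HasStrictFDerivAt (fderiv ℝ (A.ell (C.i a) (C.i b)))
      (fderiv ℝ (fderiv ℝ (A.ell (C.i a) (C.i b))) (C.q a, C.q b)) (C.prj a b C.q) :=
    (A.good_contDiffAt_fderiv _ _ (C.edge_good h)).hasStrictFDerivAt (by norm_num)
  have h2 := h1.comp C.q (C.prj a b).hasStrictFDerivAt
  exact (((ContinuousLinearMap.compL ℝ (Fin C.n → E2) (E2 × E2) ℝ).flip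
    (C.prj a b)).hasStrictFDerivAt).comp C.q h2

theorem d2_comm {a b : Fin C.n} (h : C.edge A.r a b) (ξ ζ : Fin C.n → E2) :
    C.d2 a b ξ ζ = C.d2 a b ζ ξ :=
  D2_symm_of_contDiffAt (A.good_contDiffAt _ _ (C.edge_good h)) _ _

/-- the configuration with coordinates `q` is admissible -/
def Ok (q : Fin C.n → E2) : Prop :=
  (∀ a, q a ∈ (A.c (C.i a)).target) ∧
    ∀ a b, C.edge A.r a b → (q a, q b) ∈ A.good (C.i a) (C.i b)

theorem ok_nhds : ∀ᶠ q in 𝓝 C.q, C.Ok q := by
  have e1 : ∀ᶠ q in 𝓝 C.q, ∀ a, q a ∈ (A.c (C.i a)).target := by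
    rw [eventually_all]
    intro a
    exact (continuousAt_apply a C.q).eventually
      ((A.c (C.i a)).open_target.mem_nhds (C.q_mem_target a))
  have e2 : ∀ᶠ q in 𝓝 C.q, ∀ a b, C.edge A.r a b → (q a, q b) ∈ A.good (C.i a) (C.i b) := by
    rw [eventually_all]
    intro a
    rw [eventually_all]
    intro b
    by_cases h : C.edge A.r a b
    · have : ContinuousAt (fun q : Fin C.n → E2 => (q a, q b)) C.q := by fun_prop
      filter_upwards [this.eventually ((A.good_open _ _).mem_nhds (C.edge_good h))] with q hq _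
      exact hq
    · exact Eventually.of_forall fun q h' => absurd h' h
  filter_upwards [e1, e2] with q h1 h2
  exact ⟨h1, h2⟩

/-- values of a Killing field along the configuration with coordinates `q` -/
noncomputable def kval (k : A.ι → E2 → E2) (q : Fin C.n → E2) (a : Fin C.n) : E2 :=
  k (C.i a) (q a)

theorem kval_q (k : A.ι → E2 → E2) : C.kval k C.q = C.restr k := rfl

theorem dlen_kval {k : A.ι → E2 → E2} (hk : k ∈ A.Killing) {q : Fin C.n → E2} (hq : C.Ok q)
    {a b : Fin C.n} (h : C.edge A.r a b) : C.dlen a b q (C.kval k q) = 0 := by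
  obtain ⟨h1, h2, h3, h4⟩ := hq.2 a b h
  exact hk _ _ _ h1 _ h2 h3 h4

theorem kval_continuousAt (hD : Directions) {k : A.ι → E2 → E2} (hk : k ∈ A.Killing) :
    ContinuousAt (C.kval k) C.q := by
  rw [continuousAt_pi]
  intro a
  exact ContinuousAt.comp (f := fun q : Fin C.n → E2 => q a)
    (A.killing_continuousAt hD hk _ (C.q_mem_target a)) (continuousAt_apply a C.q)

/-- the type of edges -/
abbrev Edge : Type := {p : Fin C.n × Fin C.n // C.edge A.r p.1 p.2}

noncomputable instance : Fintype C.Edge := by classical exact Fintype.ofFinite _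

/-- the differential of the weighted length functional -/
noncomputable def dL (w : C.Edge → ℝ) (q : Fin C.n → E2) : (Fin C.n → E2) →L[ℝ] ℝ :=
  ∑ p : C.Edge, w p • C.dlen p.1.1 p.1.2 q

theorem dL_apply (w : C.Edge → ℝ) (q ξ : Fin C.n → E2) :
    C.dL w q ξ = ∑ p : C.Edge, w p * C.dlen p.1.1 p.1.2 q ξ := by
  unfold dL
  rw [sum_apply]
  rfl

theorem dL_kval {k : A.ι → E2 → E2} (hk : k ∈ A.Killing) {q : Fin C.n → E2} (hq : C.Ok q)
    (w : C.Edge → ℝ) : C.dL w q (C.kval k q) = 0 := by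
  rw [dL_apply]
  refine Finset.sum_eq_zero fun p _ => ?_
  rw [C.dlen_kval hk hq p.2, mul_zero]

/-- A Killing field is in the kernel of the second variation of a critical weighted length. -/
theorem restr_mem_ker (hD : Directions) {k : A.ι → E2 → E2} (hk : k ∈ A.Killing)
    {w : C.Edge → ℝ} (hw : C.dL w C.q = 0) (ζ : Fin C.n → E2) :
    ∑ p : C.Edge, w p * C.d2 p.1.1 p.1.2 (C.restr k) ζ = 0 := by
  have h1 : HasFDerivAt (C.dL w) (∑ p : C.Edge, w p • C.ddlen p.1.1 p.1.2) C.q := by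
    have := HasFDerivAt.fun_sum (u := Finset.univ) (x := C.q)
      (A := fun (p : C.Edge) q => w p • C.dlen p.1.1 p.1.2 q)
      (A' := fun p : C.Edge => w p • C.ddlen p.1.1 p.1.2)
      (fun p _ => ((C.hasStrictFDerivAt_dlen p.2).hasFDerivAt).const_smul (w p))
    exact this
  have hline : HasDerivAt (fun t : ℝ => C.q + t • ζ) ζ 0 := by
    have := ((hasDerivAt_id (0 : ℝ)).smul_const ζ).const_add C.q
    simpa using this
  have h2 : HasDerivAt (fun t : ℝ => C.dL w (C.q + t • ζ))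
      ((∑ p : C.Edge, w p • C.ddlen p.1.1 p.1.2) ζ) 0 := by
    have h1' : HasFDerivAt (C.dL w) (∑ p : C.Edge, w p • C.ddlen p.1.1 p.1.2)
        ((fun t : ℝ => C.q + t • ζ) 0) := by simpa using h1
    exact h1'.comp_hasDerivAt 0 hline
  have h3 := hasDerivAt_iff_tendsto_slope.1 h2
  have hcont : Tendsto (fun t : ℝ => C.q + t • ζ) (𝓝[≠] 0) (𝓝 C.q) := by
    have := hline.continuousAt.tendsto.mono_left (nhdsWithin_le_nhds (s := {0}ᶜ))
    simpa using this
  have h4 : Tendsto (fun t : ℝ => C.kval k (C.q + t • ζ)) (𝓝[≠] 0) (𝓝 (C.restr k)) :=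
    (C.kval_continuousAt hD hk).tendsto.comp hcont
  have h5 : Tendsto (fun t : ℝ => (slope (fun t : ℝ => C.dL w (C.q + t • ζ)) 0 t)
      (C.kval k (C.q + t • ζ))) (𝓝[≠] 0)
      (𝓝 (((∑ p : C.Edge, w p • C.ddlen p.1.1 p.1.2) ζ) (C.restr k))) :=
    ((isBoundedBilinearMap_apply (𝕜 := ℝ) (E := Fin C.n → E2) (F := ℝ)).continuous.tendsto
      ((∑ p : C.Edge, w p • C.ddlen p.1.1 p.1.2) ζ, C.restr k)).comp (h3.prodMk_nhds h4)
  have h6 : (fun t : ℝ => (slope (fun t : ℝ => C.dL w (C.q + t • ζ)) 0 t)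
      (C.kval k (C.q + t • ζ))) =ᶠ[𝓝[≠] 0] fun _ => 0 := by
    filter_upwards [hcont.eventually C.ok_nhds] with t ht
    rw [slope_def_module]
    simp only [sub_zero, zero_smul, add_zero, hw]
    change (t⁻¹ • C.dL w (C.q + t • ζ)) (C.kval k (C.q + t • ζ)) = 0
    rw [smul_apply, C.dL_kval hk ht w, smul_zero]
  have h7 := tendsto_nhds_unique (h5.congr' h6) tendsto_const_nhds
  rw [sum_apply, sum_apply] at h7
  rw [← h7]
  refine Finset.sum_congr rfl fun p _ => ?_
  rw [C.d2_comm p.2, ← C.ddlen_apply]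
  rfl

end Config

end Pool.Agent.Helper4Nets
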